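import Pool.Agent.H5.S6.Natq
import Pool.Agent.H80.S6C.End

/-!
# The direction at smaller windows
-/

set_option autoImplicit false

namespace Pool.S6C

open Finset Real
open Pool.Agent.H49.Ent Pool.Agent.H32.Dense Pool.STK Pool.KA Pool.KSAT Pool.K2S Pool.PB Pool.KS6

/-- The plank on the mesh. -/
theorem mesh_inc {i₀ iu iN : Fin 3} {N J V L pp : ℕ} {v l p C : ℝ} (hN : 0 < N)
    (hV : (V : ℝ) = v * N) (hv0 : 0 ≤ v) (hv1 : v ≤ 1) (hL : (L : ℝ) ≤ l * N)
    (hpp : (pp : ℝ) ≤ p * N - 1) (hJ : (N : ℝ) * (N + 1) ≤ J) (hC : 0 ≤ C) {y : Pln} {t : ℝ}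
    {x d : Fin 3 → ℝ} (h : Inc i₀ iu iN ⌊v * J⌋₊ ⌊l * J⌋₊ ⌊p * J⌋₊ C y t x d) :
    Inc i₀ iu iN (V * (J / N)) (L * (J / N)) (pp * (J / N)) C y t x d := by
  have hN' : (0 : ℝ) < N := by exact_mod_cast hN
  have hJ0 : (0 : ℝ) ≤ J := Nat.cast_nonneg J
  have k1 := mesh_le (J := J) hN hV.le
  have k2 := mesh_le (J := J) hN hL
  exact by
   have k3 : ((pp * (J / N) : ℕ) : ℝ) ≤ (p - 1 / N) * J := mesh_le (J := J) hN (by
     have : (p - 1 / N) * N = p * N - 1 := by field_simp
     rw [this]; exact hpp)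
   have k4 := mesh_ge (J := J) (b := 0) hN hv1 hv0 le_rfl (by rw [hV]; linarith only)
   have k5 : (J : ℝ) / N ≥ N + 1 := by
     rw [ge_iff_le, le_div_iff₀ hN']
     linarith only [hJ]
   have k6 : (p - 1 / N) * J = p * J - J / N := by ring
   refine inc_coarse h hC (Nat.le_floor k1) (Nat.le_floor k2) (Nat.le_floor ?_) ?_
   · rw [k6] at k3
     linarith only [hN', k3, k5]
   · have a1 : (⌊v * J⌋₊ : ℝ) ≤ v * J := Nat.floor_le (by positivity)
     have a2 : p * J < ⌊p * J⌋₊ + 1 := Nat.lt_floor_add_one _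
     have a3 : ((pp * (J / N) + ⌊v * (J : ℝ)⌋₊ : ℕ) : ℝ) ≤
         ((⌊p * (J : ℝ)⌋₊ + V * (J / N) : ℕ) : ℝ) := by
       rw [Nat.cast_add, Nat.cast_add]
       linarith only [k3, k4, k5, k6, a1, a2]
     exact_mod_cast a3

/-- The position given a label. -/
theorem nat_mono {J : ℕ} (F : Fam 3 J) {A : F.Ω → Prop} (hA : 0 < Pe F.p A) {P q : ℕ}
    (h : P ≤ q) {Y Y' : Type} (z : F.Ω → Y) (z' : F.Ω → Y')
    (hz : ∀ ω ω', A ω → A ω' → z ω = z ω' → F.W ω = F.W ω' → z' ω = z' ω') :
    CH (Pool.Agent.H49.Ent.cond F.p A True) (F.X P) (fun ω => (z ω, F.W ω)) ≤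
      CH (Pool.Agent.H49.Ent.cond F.p A True) (F.X q) (fun ω => (z' ω, F.W ω)) := by
  have hlaw := isLaw_cond F.isLaw hA
  have hpos : ∀ ω, 0 < Pool.Agent.H49.Ent.cond F.p A True ω → A ω := fun ω hω => by
    have := ((cond_pos_iff F.isLaw.nonneg A True ω).1 hω).2
    simpa using this
  obtain ⟨χ, hχ⟩ := ptr_coarse F h
  refine le_trans (CH_mono_left hlaw.nonneg fun ω ω' _ _ hh => ?_)
    (CH_mono_cond hlaw.nonneg (X := F.X q) fun ω ω' hω hω' hh => ?_)
  · obtain ⟨b1, b2⟩ := Prod.ext_iff.mp hh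
    have b3 : F.W ω = F.W ω' := (Prod.ext_iff.mp b2).2
    have h1 := hχ ω
    have h2 := hχ ω'
    have h3 : ptr F q ω = ptr F q ω' := Prod.ext b1 b3
    rw [h3, ← h2] at h1
    exact (Prod.ext_iff.mp h1).1
  · obtain ⟨b1, b2⟩ := Prod.ext_iff.mp hh
    exact Prod.ext (hz ω ω' (hpos ω hω) (hpos ω' hω') b1 b2) b2

/-- A natural number near a real number. -/
theorem nat_near {s : ℝ} (hs : 0 ≤ s) : ∃ k : ℕ, s - 1 ≤ k ∧ (k : ℝ) ≤ s :=
  ⟨⌊s⌋₊, by linarith only [Nat.lt_floor_add_one s], Nat.floor_le hs⟩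

/-- Numbers. -/
theorem lb_num {g p v v' l h J N s Ra β L2 E G V L pp y b : ℝ} (hL : 0 ≤ L2) (hL1 : L2 ≤ 1)
    (hRa : 0 ≤ Ra) (hN : 0 ≤ N) (hJ : 0 ≤ J) (h1 : G ≤ g * J) (h2 : v * J - N ≤ V)
    (h3 : l * J - 2 * (J / N) - N ≤ L) (h4 : p * J - 2 * (J / N) - N ≤ pp)
    (h5 : y ≤ (v - v') * J) (h6 : β * J - N ≤ b)
    (hs : s = Ra * β - (3 * (v - v') + 3 * (g - p) + h) * L2)
    (hs4 : 4 * (J / N) ≤ s / 4 * J) (j4 : 4 * N + Ra * N ≤ s / 2 * J)
    (hE : (2 * p - 2 * v - l - h) * J * L2 ≤ E) :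
    ((G - V) + (G - (V + L)) + (G - pp)) * L2 - E + 0 + 3 * (y * L2) ≤
      Ra * b - s / 4 * J := by
  have a1 : ((G - V) + (G - (V + L)) + (G - pp)) * L2 ≤
      ((3 * g - 2 * v - l - p) * J + (4 * (J / N) + 4 * N)) * L2 :=
    mul_le_mul_of_nonneg_right (by linarith only [h1, h2, h3, h4]) hL
  have a2 : y * L2 ≤ (v - v') * J * L2 := mul_le_mul_of_nonneg_right h5 hL
  have a3 : Ra * (β * J - N) ≤ Ra * b := mul_le_mul_of_nonneg_left h6 hRa
  have a4 : (4 * (J / N) + 4 * N) * L2 ≤ (4 * (J / N) + 4 * N) * 1 :=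
    mul_le_mul_of_nonneg_left hL1 (by positivity)
  have a5 : s * J = Ra * β * J - (3 * (v - v') + 3 * (g - p) + h) * L2 * J := by rw [hs]; ring
  linarith only [hs4, j4, hE, a1, a2, a3, a4, a5]

/-- **The direction at smaller windows.** -/
theorem lb_prod {S : PCl 3} {a R h₁ : ℝ} {i₀ : Fin 3} {c s₂ : ℝ} {r : ℝ → ℝ} {D : Set ℝ}
    {σ : ℝ → Row} (hC : Cs S a R h₁ i₀ c s₂ r D σ) {g p l β h : ℝ} {v v' : ℚ}
    (hg0 : 0 < g) (hg1 : g ≤ 1) (hgD : g ∉ D) (hpi : 0 < (σ g).pi)
    (hv'0 : 0 ≤ v') (hvv : v' ≤ v) (hvl : (v : ℝ) + l ≤ p) (hpg : p ≤ g) (hβ0 : 0 < β)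
    (hβl : β < l)
    (hnum : (3 * ((v : ℝ) - v') + 3 * (g - p) + h) * Real.log 2 < R / a * β)
    (hnat : Clp S (qNat i₀ g v l p h)) : l - β ≤ (σ g).rot v' := by
  classical
  have hrg := hC.row g hg0 hg1 hgD
  have hlog : 0 < Real.log 2 := Real.log_pos (by norm_num)
  have hlog1 : Real.log 2 ≤ 1 := by
    have := Real.log_two_lt_d9
    linarith only [hlog, this]
  have hv'0' : (0 : ℝ) ≤ v' := by exact_mod_cast hv'0
  have hvv' : (v' : ℝ) ≤ v := by exact_mod_cast hvv
  have hl1 : l ≤ 1 := by linarith only [hg1, hvl, hpg, hv'0', hvv']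
  exact by
   have hp0 : 0 < p := by linarith only [hvl, hβ0, hβl, hv'0', hvv']
   have hv1 : (v : ℝ) ≤ 1 := by linarith only [hg1, hvl, hpg, hβ0, hβl]
   have hv'1 : v' ≤ 1 := by
     have : (v' : ℝ) ≤ 1 := by linarith only [hg1, hvl, hpg, hβ0, hβl, hvv']
     exact_mod_cast this
   refine le_of_forall_pos_le_add fun x hx => ?_
   have goal : l - β - x ≤ (σ g).rot v' := by
     refine num_ge hC.ne (hrg.rot v' hv'0 hv'1) ?_
     by_cases hneg : l - β - x ≤ 0
     · exact Clp.of one_pos 0 fun _ _ _ _ _ => Or.inl hneg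
     push Not at hneg
     obtain ⟨h₂, hh₂, hline⟩ := line_row hC hg1 hrg hpi
     obtain ⟨s₀, hs₀⟩ : ∃ s₀, s₀ = R / a * β -
       (3 * ((v : ℝ) - v') + 3 * (g - p) + h) * Real.log 2 := ⟨_, rfl⟩
     have hs0 : 0 < s₀ := by rw [hs₀]; linarith only [hnum]
     obtain ⟨N, V, V', hN, hKN, hV, hV'⟩ := mesh_two (hv'0.trans hvv) hv'0
       (16 / s₀ + 4 / (l - β) + 6 / x + 2 / l)
     have hN' : (0 : ℝ) < N := by exact_mod_cast hN
     have q1 : 0 < 16 / s₀ := by positivity
     have q2 : 0 < 4 / (l - β) := div_pos (by norm_num) (by linarith only [hx, hneg])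
     have q3 : 0 < 6 / x := by positivity
     have q4 : 0 < 2 / l := div_pos (by norm_num) (by linarith only [hβ0, hx, hneg])
     have n1 : 16 ≤ N * s₀ := by
       have : 16 / s₀ ≤ N := by linarith only [hKN, q2, q3, q4]
       rwa [div_le_iff₀ hs0] at this
     have n2 : 4 ≤ N * (l - β) := by
       have : 4 / (l - β) ≤ N := by linarith only [hKN, q1, q3, q4]
       rwa [div_le_iff₀ (by linarith only [hx, hneg])] at this
     have n3 : 6 ≤ N * x := by
       have : 6 / x ≤ N := by linarith only [hKN, q1, q2, q4]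
       rwa [div_le_iff₀ hx] at this
     have n4 : 2 ≤ N * l := by
       have : 2 / l ≤ N := by linarith only [hKN, q1, q2, q3]
       rwa [div_le_iff₀ (by linarith only [hβ0, hx, hneg])] at this
     have n5 : (N : ℝ) * l ≤ N * p := mul_le_mul_of_nonneg_left (by
       have : (0 : ℝ) ≤ v := by linarith only [hv'0', hvv']
       linarith only [hvl, hv'0', hvv']) hN'.le
     obtain ⟨L, hL1, hL2⟩ := nat_near (s := l * N - 1) (by linarith only [hg1, hvl, hpg, hβ0, hv'0', hvv', hx, hneg, n4])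
     obtain ⟨pp, hpp1, hpp2⟩ := nat_near (s := p * N - 1) (by linarith only [hg1, hvl, hpg, hβ0, hv'0', hvv', hx, hneg, n4, n5])
     obtain ⟨b, hb1, hb2⟩ := nat_near (s := β * N + 1) (by positivity)
     have hVN : V ≤ N := by
       have : (V : ℝ) ≤ N := by
         rw [hV]
         calc (v : ℝ) * N ≤ 1 * N := mul_le_mul_of_nonneg_right hv1 hN'.le
           _ = N := one_mul _
       exact_mod_cast this
     have hVV : V' ≤ V := by
       have : (V' : ℝ) ≤ V := by
         rw [hV, hV']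
         exact mul_le_mul_of_nonneg_right hvv' hN'.le
       exact_mod_cast this
     have hbL : b ≤ L := by
       have : (b : ℝ) ≤ L := by linarith only [hg1, hvl, hpg, hβ0, hv'0', hvv', hx, hneg, n2, hL1, hb2]
       exact_mod_cast this
     have hbN : b < N := by
       have : (b : ℝ) < N := by
         have h1 : (N : ℝ) * l ≤ N * 1 := mul_le_mul_of_nonneg_left hl1 hN'.le
         linarith only [hg1, hvl, hpg, hβ0, hv'0', hvv', hx, hneg, n2, hb2, h1]
       exact_mod_cast this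
     obtain ⟨y, hy⟩ : ∃ y, y = V - V' := ⟨_, rfl⟩
     have hyr : (y : ℝ) = ((v : ℝ) - v') * N := by
       rw [hy, Nat.cast_sub hVV, hV, hV']
       ring
     have hVy : V - y = V' := by omega
     -- the claims
     have hclaims : Clp S (fun J F A => ∀ q : Fin 3 × Fin 3,
         (∀ j : Fin 3, j = i₀ ∨ j = q.1 ∨ j = q.2) →
         LineAt i₀ (1 / 2 ^ ⌊h₂ * J⌋₊) (Pool.K3.ptm F ⌊g * J⌋₊) F.d A →
         ∀ (Y : Type) (z : F.Ω → Y) (k : Fin 3 → ℕ) (P : ℕ), P ≤ ⌊g * J⌋₊ → (∀ i, k i ≤ P) →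
         (∃ φ : (Fin 3 → ℤ) × (ℕ × F.ζ) → Y, ∀ ω, A ω → z ω = φ (Pool.K3.ptm F ⌊g * J⌋₊ ω)) →
         Pool.K3.BoxL F.x F.d A z ![i₀, q.1, q.2] k (V * (J / N)) 4 →
         LineU i₀ (1 / 2 ^ (L * (J / N))) z F.d A →
         Pool.K3.full P k - CH (Pool.Agent.H49.Ent.cond F.p A True) (F.X P)
             (fun ω => (z ω, F.W ω)) +
           CH (Pool.Agent.H49.Ent.cond F.p A True) z (fun ω => (F.X P ω, F.W ω)) +
           (3 : ℕ) * (((y * (J / N) : ℕ) : ℝ) * Real.log 2) ≤
             R / a * ((b * (J / N) : ℕ) : ℝ) - s₀ / 4 * J →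
         RotU i₀ (1 / 2 ^ ((L - b) * (J / N))) (1 / 2 ^ ((L - b) * (J / N)))
           (Pool.K3.ptm F ⌊g * J⌋₊) (slam F ((V - y) * (J / N))) F.d A) := by
       refine Clp.finite fun q => Clp.cnd fun hq => ?_
       have hsur : Function.Surjective (![i₀, q.1, q.2] : Fin 3 → Fin 3) := by
         intro j
         rcases hq j with h | h | h
         · exact ⟨0, h.symm⟩
         · exact ⟨1, h.symm⟩
         · exact ⟨2, h.symm⟩
       exact clp_of_clm hC.st (Claim.clm (Pool.K3.labq_thm 3 a R hC.a1.le hC.R0 hC.ub h₂ (s₀ / 4)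
         4 hh₂ (by positivity) (by norm_num) N i₀ _ hsur L b V y hbL hbN hVN (by omega)
         (fun J => ⌊g * J⌋₊) (fun J => floor_row_one hg1 J)))
     obtain ⟨J₁, hJ₁⟩ := exists_nat_gt ((N : ℝ) * (N + 5) + (4 * N + R / a * N) / (s₀ / 2) +
       2 * N / x + 1)
     have c5 : Clp S (fun J F A => 0 < Pe F.p A) :=
       Clp.base 1 one_pos 0 fun J _ F A hA => lt_of_lt_of_le (Real.exp_pos _)
         (hC.st _ _ _ _ hA).2.2.2
     refine Clp.mono (J₂ := J₁) ((hclaims.and hline).and (hnat.and c5)) ?_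
     rintro J hJ F A ⟨⟨d1, d2⟩, ⟨iu, iN, hi, z, hI, ⟨φ, hφ⟩, hfull⟩, hA⟩
     have hJr : (N : ℝ) * (N + 5) + (4 * N + R / a * N) / (s₀ / 2) + 2 * N / x + 1 < J :=
       hJ₁.trans_le (by exact_mod_cast hJ)
     have hRa : 0 < R / a := div_pos hC.R0 (by linarith only [hg1, hvl, hpg, hβ0, hv'0', hvv', hx, hneg, hC, hC.a1])
     have j1 : 0 < (4 * N + R / a * N) / (s₀ / 2) := by positivity
     have j2 : 0 < 2 * N / x := by positivity
     have j0 : 0 ≤ (N : ℝ) * (N + 5) := by positivity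
     have j3 : (N : ℝ) * (N + 5) ≤ J := by linarith only [hg1, hvl, hpg, hβ0, hv'0', hvv', hx, hneg, hJr, j1, j2]
     have j3' : (N : ℝ) * (N + 1) ≤ J := by linarith only [hg1, hvl, hpg, hβ0, hv'0', hvv', hx, hneg, hKN, q1, q2, q3, q4, hJr, j1, j2]
     have j4 : 4 * N + R / a * N ≤ s₀ / 2 * J := by
       have : (4 * N + R / a * N) / (s₀ / 2) ≤ J := by linarith only [hg1, hvl, hpg, hβ0, hv'0', hvv', hx, hneg, hJr, j2, j0]
       rw [div_le_iff₀ (by positivity)] at this
       linarith only [this]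
     exact by
      have j5 : 2 * N ≤ x * J := by
        have : 2 * N / x ≤ J := by linarith only [hg1, hvl, hpg, hβ0, hv'0', hvv', hx, hneg, hJr, j1, j0]
        rw [div_le_iff₀ hx] at this
        linarith only [this]
      have hJ0 : (0 : ℝ) ≤ J := Nat.cast_nonneg J
      have k5 : (N : ℝ) + 5 ≤ J / N := by
        rw [le_div_iff₀ hN']
        linarith only [hg1, hvl, hpg, hβ0, hv'0', hvv', hx, hneg, hJr, j1, j2]
      have hs4 : 4 * ((J : ℝ) / N) ≤ s₀ / 4 * J := by
        rw [mul_div_assoc', div_le_iff₀ hN']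
        have := mul_le_mul_of_nonneg_right n1 hJ0
        linarith only [this]
      have hx3 : 3 * ((J : ℝ) / N) ≤ x / 2 * J := by
        rw [mul_div_assoc', div_le_iff₀ hN']
        have := mul_le_mul_of_nonneg_right n3 hJ0
        linarith only [this]
      -- the numbers
      obtain ⟨u, hu⟩ : ∃ u, u = J / N := ⟨_, rfl⟩
      have m1 := mesh_le (J := J) (k := V) (s := v) hN hV.le
      have m2 : ((L * (J / N) : ℕ) : ℝ) ≤ (l - 1 / N) * J := mesh_le hN (by
        have : (l - 1 / N) * N = l * N - 1 := by field_simp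
        rw [this]; exact hL2)
      have m3 : ((pp * (J / N) : ℕ) : ℝ) ≤ (p - 1 / N) * J := mesh_le hN (by
        have : (p - 1 / N) * N = p * N - 1 := by field_simp
        rw [this]; exact hpp2)
      have m4 := mesh_le (J := J) (k := y) (s := (v : ℝ) - v') hN hyr.le
      have m5 := mesh_ge (J := J) (k := V) (s := v) (b := 0) hN hv1 (by linarith only [hv'0', hvv']) le_rfl
        (by rw [hV]; linarith only)
      have m6 := mesh_ge (J := J) (k := L) (s := l) (b := 2) hN hl1 (by linarith only [hβ0, hx, hneg]) (by norm_num)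
        (by linarith only [hL1])
      have m7 := mesh_ge (J := J) (k := pp) (s := p) (b := 2) hN (by linarith only [hg1, hpg]) (by linarith only [hvl, hβ0, hv'0', hvv', hx, hneg])
        (by norm_num) (by linarith only [hpp1])
      have m8 := mesh_ge (J := J) (k := b) (s := β) (b := 0) hN (by linarith only [hg1, hvl, hpg, hv'0', hvv', hx, hneg]) (by linarith only [hβ0])
        le_rfl (by linarith only [hb1])
      have m9 := mesh_ge (J := J) (k := L - b) (s := l - β) (b := 3) hN (by linarith only [hg1, hvl, hpg, hβ0, hv'0', hvv'])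
        (by linarith only [hx, hneg]) (by norm_num) (by rw [Nat.cast_sub hbL]; linarith only [hL1, hb2])
      have m10 := mesh_le (J := J) (k := V') (s := v') hN hV'.le
      rw [← hu] at m1 m2 m3 m4 m5 m6 m7 m8 m9 m10
      have e1 : (l - 1 / N) * J = l * J - J / N := by ring
      have e2 : (p - 1 / N) * J = p * J - J / N := by ring
      rw [e1] at m2
      rw [e2] at m3
      have hvJ0 : 0 ≤ (v : ℝ) * J := mul_nonneg (by linarith only [hv'0', hvv']) hJ0
      have hlJ0 : 0 ≤ l * J := mul_nonneg (by linarith only [hβ0, hx, hneg]) hJ0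
      have f1 : (⌊(v : ℝ) * J⌋₊ : ℝ) ≤ v * J := Nat.floor_le hvJ0
      have f2 : (⌊l * J⌋₊ : ℝ) ≤ l * J := Nat.floor_le hlJ0
      have f3 : l * J < ⌊l * J⌋₊ + 1 := Nat.lt_floor_add_one _
      have f4 : ((v : ℝ) + l) * J ≤ p * J := mul_le_mul_of_nonneg_right hvl hJ0
      have f5 : p * J ≤ g * J := mul_le_mul_of_nonneg_right hpg hJ0
      obtain ⟨G, hG⟩ : ∃ G, G = ⌊g * J⌋₊ := ⟨_, rfl⟩
      have f6 : (G : ℝ) ≤ g * J := by rw [hG]; exact Nat.floor_le (by positivity)
      have hpG : ⌊p * J⌋₊ ≤ G := by rw [hG]; exact floor_row hpg J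
      have hGJ : G ≤ J := by rw [hG]; exact floor_row_one hg1 J
      -- the label on the mesh
      have hIm : ∀ ω, A ω → Inc i₀ iu iN (V * u) (L * u) (pp * u) 2 (z ω) (F.t ω) (F.x ω)
          (F.d ω) := fun ω hω => by
        rw [hu]
        exact mesh_inc hN hV (by linarith only [hv'0', hvv']) hv1 (by linarith only [hg1, hvl, hpg, hβ0, hv'0', hvv', hx, hneg, hL2]) hpp2 j3'
          (by norm_num) (hI ω hω)
      have hbox := box_inc F (c := 4) (by norm_num) le_rfl hIm
      have hln := line_inc F hi (by norm_num) hI (by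
        have : ((⌊(v : ℝ) * J⌋₊ + ⌊l * J⌋₊ : ℕ) : ℝ) ≤ p * J := by push_cast; linarith only [f1, f2, f4]
        exact Nat.le_floor this)
      have hln' : LineU i₀ (1 / 2 ^ (L * u)) (fun ω => (z ω, F.T ω)) F.d A := by
        refine hln.mono ?_
        have g1 : L * u + 4 ≤ ⌊l * J⌋₊ := by
          refine Nat.le_floor ?_
          push_cast at m2 ⊢
          linarith only [hg1, hvl, hpg, hβ0, hv'0', hvv', hx, hneg, hKN, q1, q2, q3, q4, k5, m2]
        exact by
         have g2 : (1 : ℝ) / 2 ^ ⌊l * J⌋₊ ≤ 1 / 2 ^ (L * u + 4) := inv_mono g1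
         have g3 : (1 : ℝ) / 2 ^ (L * u + 4) = 1 / 2 ^ (L * u) / 16 := by
           rw [pow_add]
           field_simp
           norm_num
         have g4 : (0 : ℝ) < 1 / 2 ^ (L * u) := by positivity
         have g5 : 5 * 2 / 2 ^ ⌊l * J⌋₊ = 10 * ((1 : ℝ) / 2 ^ ⌊l * J⌋₊) := by ring
         rw [g5]
         linarith only [g2, g3, g4]
      exact by
       have hdet : Det (Pool.Agent.H49.Ent.cond F.p A True) (fun ω => (F.X G ω, F.W ω))
           (fun ω => (z ω, F.T ω)) := by
         intro ω ω' hω hω' hh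
         have hω1 : A ω := by
           have := ((cond_pos_iff F.isLaw.nonneg A True ω).1 hω).2
           simpa using this
         have hω2 : A ω' := by
           have := ((cond_pos_iff F.isLaw.nonneg A True ω').1 hω').2
           simpa using this
         have h1 : Pool.KS6.ptq F ⌊g * J⌋₊ ω = Pool.KS6.ptq F ⌊g * J⌋₊ ω' := by
           rw [← hG]; exact hh
         have h2 : F.W ω = F.W ω' := (Prod.ext_iff.mp hh).2
         refine Prod.ext ?_ (Prod.ext_iff.mp h2).1
         simp only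
         rw [hφ ω hω1, hφ ω' hω2, h1]
       have hz0 := CH_eq_zero (isLaw_cond F.isLaw hA).nonneg hdet
       have hent := nat_mono F hA hpG z (fun ω => (z ω, F.T ω)) (fun ω ω' _ _ h1 h2 =>
         Prod.ext h1 (Prod.ext_iff.mp h2).1)
       have hk : ∀ i, (![V * u, V * u + L * u, pp * u] : Fin 3 → ℕ) i ≤ G := by
         have k1 : V * u ≤ G := by
           rw [hG]
           refine Nat.le_floor ?_
           linarith only [hg1, hvl, hpg, hβ0, hv'0', hvv', hx, hneg, hKN, q1, q2, q3, q4, k5, m1, m2, f4, f5]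
         exact by
          have k2 : V * u + L * u ≤ G := by
            rw [hG]
            refine Nat.le_floor ?_
            rw [Nat.cast_add]
            linarith only [hg1, hvl, hpg, hβ0, hv'0', hvv', hx, hneg, hKN, q1, q2, q3, q4, k5, m1, m2, f4, f5]
          exact by
           have k3 : pp * u ≤ G := by
             rw [hG]
             refine Nat.le_floor ?_
             linarith only [hg1, hvl, hpg, hβ0, hv'0', hvv', hx, hneg, hKN, q1, q2, q3, q4, k5, m3, f5]
           exact by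
            intro i
            fin_cases i
            · exact k1
            · exact k2
            · exact k3
       exact by
        have hrot := d1 (iu, iN) hi d2 (Pln × ℕ) (fun ω => (z ω, F.T ω))
          ![V * u, V * u + L * u, pp * u] G (by rw [hG]) hk
          ⟨fun s => (φ s, s.2.1), fun ω hω => by
            rw [hφ ω hω]
            rfl⟩ (by rw [← hu]; exact hbox) (by rw [← hu]; exact hln') (by
            rw [← hu, hz0]
            have hfl : Pool.K3.full G ![V * u, V * u + L * u, pp * u] =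
                ((G - (V * u : ℕ)) + (G - ((V * u : ℕ) + (L * u : ℕ))) + (G - (pp * u : ℕ))) *
                  Real.log 2 := by
              unfold Pool.K3.full
              rw [Fin.sum_univ_three]
              simp only [Matrix.cons_val_zero, Matrix.cons_val_one, Matrix.cons_val]
              push_cast
              ring
            exact by
             rw [hfl]
             have a0 : ((3 : ℕ) : ℝ) = 3 := by norm_num
             rw [a0]
             exact lb_num hlog.le hlog1 hRa.le hN'.le hJ0 (by linarith only [f6]) (by linarith only [m5]) (by linarith only [m6])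
               (by linarith only [m7]) m4 (by linarith only [m8]) hs₀ hs4 j4 (hfull.trans hent))
        exact by
         refine Or.inr ⟨by linarith only [hg1, hvl, hpg, hβ0, hv'0', hvv', hx], ?_⟩
         rw [← hu, hVy] at hrot
         have hVJ : V' * u ≤ ⌊(v' : ℝ) * J⌋₊ := Nat.le_floor m10
         have hrot' := RotU.window (wn' := slam F ⌊(v' : ℝ) * J⌋₊)
           (φ := fun s => (s.1, s.2.1, s.2.2 / 2 ^ (⌊(v' : ℝ) * J⌋₊ - V' * u)))
           (fun ω => slam_coarse F hVJ (floor_row_one (by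
             have : (v' : ℝ) ≤ 1 := by exact_mod_cast hv'1
             exact by
              exact this) J) ω) hrot
         have hfin : ⌊(l - β - x) * J⌋₊ ≤ (L - b) * u := by
           exact by
            have h1 : (⌊(l - β - x) * J⌋₊ : ℝ) ≤ (l - β - x) * J :=
              Nat.floor_le (mul_nonneg hneg.le hJ0)
            exact by
             have h2 : (⌊(l - β - x) * J⌋₊ : ℝ) ≤ (((L - b) * u : ℕ) : ℝ) := by
               refine h1.trans ?_
               refine le_trans ?_ m9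
               linarith only [hg1, hvl, hpg, hβ0, hv'0', hvv', hx, hneg, hKN, q1, q2, q3, q4, k5, hx3]
             exact by
              exact_mod_cast h2
         exact by
          exact hrot'.mono (inv_mono hfin) (inv_mono hfin)
   exact by
    linarith only [goal]

end Pool.S6C
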