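import Pool.Agent.H5.S6.Lb
import Pool.Agent.H77.S6C.Pu

/-!
# Planks for smaller windows
-/

set_option autoImplicit false

namespace Pool.S6C

open Finset Real
open Pool.Agent.H49.Ent Pool.Agent.H32.Dense Pool.STK Pool.KA Pool.KSAT Pool.K2S Pool.PB Pool.KS6

/-- The thickness is at least the one of plank labels which are visible at the row. -/
theorem th_of_lab {S : PCl 3} {a R : ℝ} {i₀ : Fin 3} (hS : S.Ne)
    (hst : ∀ (τ : ℝ) (J : ℕ) (F : Fam 3 J) (A : F.Ω → Prop), S.St τ J F A → Fam.Stt F a R τ A)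
    {Q : ℝ} (hQ1 : Q ≤ 1) {ρ : Row} (hρ : Rw S i₀ Q ρ) {v : ℚ} (hv : 0 ≤ v)
    (hvQ : (v : ℝ) ≤ Q) {s : ℝ} (hsQ : s ≤ Q)
    (h : Clp S (fun J F A => ∃ iu iN : Fin 3, (∀ j : Fin 3, j = i₀ ∨ j = iu ∨ j = iN) ∧
      ∃ w lam P : ℕ, LABq F ⌊Q * J⌋₊ i₀ iu iN w lam P 2 A ∧ w ≤ ⌊(v : ℝ) * J⌋₊ ∧
        w + ⌊s * J⌋₊ ≤ ⌊(v : ℝ) * J⌋₊ + P)) : s ≤ ρ.th v := by
  classical
  have hv1 : v ≤ 1 := by
    have : (v : ℝ) ≤ 1 := hvQ.trans hQ1
    exact_mod_cast this
  refine num_ge hS (hρ.th v hv hv1) ?_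
  obtain ⟨κc, hκc⟩ : ∃ κc : ℝ, κc = Real.exp (-(8 * (3 * Real.log 15 +
      6 * Real.log (16 * 2 + 21)))) / 2 := ⟨_, rfl⟩
  have hκc0 : 0 < κc := by rw [hκc]; positivity
  refine Clp.step ⟨1, fun J F _ => qTh i₀ Q v s J F, fun J F _ A B hB => by
    rintro ⟨iu, iN, hi, hL⟩
    exact ⟨iu, iN, hi, LABq.hered _ _ _ _ _ _ _ _ _ A B hB hL⟩⟩ fun κ hκ => ?_
  obtain ⟨J₂, hJ₂⟩ := Pool.S6K.exp_small (κ := κ) (C := max 1 (1 / κc)) hκ (le_max_left _ _)
  have c2 : Clp S (fun J F A => 0 < Pe F.p A) :=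
    Clp.base 1 one_pos 0 fun J _ F A hA => lt_of_lt_of_le (Real.exp_pos _) (hst _ _ _ _ hA).2.2.2
  refine Clp.mono (J₂ := J₂) (h.and c2) ?_
  rintro J hJ F A ⟨⟨iu, iN, hi, w, lam, P, hL, hw, hP⟩, d2⟩ hSb
  have hQJ : ⌊Q * J⌋₊ ≤ J := floor_row_one hQ1 J
  have f2 : ⌊(v : ℝ) * J⌋₊ ≤ ⌊Q * J⌋₊ := floor_row hvQ J
  have f3 : ⌊s * J⌋₊ ≤ ⌊Q * J⌋₊ := floor_row hsQ J
  obtain ⟨B, hB, hPB, hLB⟩ := lab_window F hi d2 hL (w' := ⌊(v : ℝ) * J⌋₊) (l2 := 0)
    (P2 := ⌊s * J⌋₊) hw (Nat.zero_le _) (by omega) hP f3 hQJ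
  rw [← hκc] at hPB
  have hPA : Pe F.p A ≤ max 1 (1 / κc) * Pe F.p B := by
    have e2 : Pe F.p A ≤ 1 / κc * Pe F.p B := by
      rw [div_mul_eq_mul_div, le_div_iff₀ hκc0]
      linarith only [hPB]
    exact e2.trans (mul_le_mul_of_nonneg_right (le_max_right _ _) (Pe_nonneg F.isLaw B))
  exact Or.inr ⟨hsQ, Pool.S6K.stb_part (hSb 0) hB (by positivity) hPA
    (hJ₂ J hJ) (Pe_nonneg F.isLaw A) ⟨iu, iN, hi, hLB⟩⟩

/-- More rows are given. -/
theorem rows_mono {J : ℕ} (F : Fam 3 J) {A : F.Ω → Prop} (hA : 0 < Pe F.p A) {P P' G : ℕ}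
    (h : P ≤ P') : CH (Pool.Agent.H49.Ent.cond F.p A True) (F.X G)
      (fun ω => (F.X P' ω, F.W ω)) ≤ CH (Pool.Agent.H49.Ent.cond F.p A True) (F.X G)
      (fun ω => (F.X P ω, F.W ω)) := by
  obtain ⟨χ, hχ⟩ := ptr_coarse F h
  refine CH_mono_cond (isLaw_cond F.isLaw hA).nonneg fun ω ω' _ _ hh => ?_
  have h1 := hχ ω
  have h2 := hχ ω'
  have h3 : ptr F P' ω = ptr F P' ω' := hh
  rw [h3, ← h2] at h1
  exact h1

/-- Numbers. -/
theorem lc_num {g p p₁ v v' l β h c J N s L2 G V VL y pp q1 H RW P : ℝ} (hL : 0 ≤ L2)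
    (hL1 : L2 ≤ 1) (hc0 : 0 ≤ c) (hc3 : c ≤ 3) (hN : 0 < N) (hJ : 0 ≤ J) (h0 : G ≤ g * J)
    (h1 : g * J - 1 ≤ G) (h2 : v * J - N ≤ V) (h3 : (v + l) * J - 2 * (J / N) - N ≤ VL)
    (h4 : p * J - 2 * (J / N) - N ≤ pp) (h5 : y ≤ (2 * (v - v') + β) * J + 2 * (J / N))
    (h6 : q1 ≤ p₁ * J) (hP : p₁ - 2 / N ≤ P)
    (hs : s = (c * (g - p₁) - 9 * (g - p) - 3 * h - 2 * (v - v') - β) * L2)
    (hs4 : 20 * (J / N) ≤ s / 4 * J) (j4 : 9 * N + 3 ≤ s / 2 * J)
    (hH : (2 * p - 2 * v - l - h) * J * L2 ≤ H)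
    (hR : RW ≤ ((3 - c) * (g - P) * L2 + s / 8) * J) :
    3 * (((G - V) + (G - VL)) * L2 - H) + (y + 3 * (G - pp)) * L2 + RW ≤
      3 * (G - q1) * L2 - s / 8 * J := by
  have hJN : 0 ≤ J / N := by positivity
  have a1 : ((G - V) + (G - VL)) * L2 ≤ ((2 * g - 2 * v - l) * J + 2 * (J / N) + 2 * N) * L2 :=
    mul_le_mul_of_nonneg_right (by linarith only [h0, h2, h3]) hL
  have a2 : (y + 3 * (G - pp)) * L2 ≤
      ((2 * (v - v') + β + 3 * (g - p)) * J + 8 * (J / N) + 3 * N) * L2 :=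
    mul_le_mul_of_nonneg_right (by linarith only [h0, h4, h5]) hL
  have a3 : (3 * (g - p₁) * J - 3) * L2 ≤ 3 * (G - q1) * L2 :=
    mul_le_mul_of_nonneg_right (by linarith only [h1, h6]) hL
  have a4 : (3 - c) * (g - P) * (L2 * J) ≤ (3 - c) * (g - (p₁ - 2 / N)) * (L2 * J) :=
    mul_le_mul_of_nonneg_right (mul_le_mul_of_nonneg_left (by linarith only [hP]) (by linarith only [hc3]))
      (by positivity)
  have a5 : (3 - c) * (2 * ((J / N) * L2)) ≤ 3 * (2 * ((J / N) * L2)) :=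
    mul_le_mul_of_nonneg_right (by linarith only [hc0]) (by positivity)
  have a6 : (3 - c) * (g - (p₁ - 2 / N)) * (L2 * J) = (3 - c) * (g - p₁) * (L2 * J) +
      (3 - c) * (2 * ((J / N) * L2)) := by ring
  have a7 : (20 * (J / N) + 9 * N + 3) * L2 ≤ (20 * (J / N) + 9 * N + 3) * 1 :=
    mul_le_mul_of_nonneg_left hL1 (by positivity)
  have a8 : s * J = (c * (g - p₁) - 9 * (g - p) - 3 * h - 2 * (v - v') - β) * L2 * J := by
    rw [hs]
  linarith only [hs4, j4, hH, hR, a1, a2, a3, a4, a5, a6, a7, a8]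

/-- **Planks for smaller windows**, with a frame. -/
theorem lc_prd {S : PCl 3} {a R h₁ : ℝ} {i₀ : Fin 3} {c s₂ : ℝ} {r : ℝ → ℝ} {D : Set ℝ}
    {σ : ℝ → Row} (hC : Cs S a R h₁ i₀ c s₂ r D σ) {g p p₁ l β h : ℝ} {v v' v₃ : ℚ}
    (hg0 : 0 < g) (hg1 : g ≤ 1) (hgD : g ∉ D) (hpl : Plr r c g) (hpi : 0 < (σ g).pi)
    (hv₃ : 0 ≤ v₃) (hv₃' : v₃ < v') (hvv : v' ≤ v) (hpg : p ≤ g)
    (hβv : (v : ℝ) - v' ≤ β) (hβ0 : 0 < β) (hβl : β < l) (hvl : (v : ℝ) + l < p₁)
    (hpp : p₁ + ((v : ℝ) - v') < p) (hrot : l - β < (σ g).rot v₃)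
    (hnum : 9 * (g - p) + 3 * h + 2 * ((v : ℝ) - v') + β < c * (g - p₁))
    (hnat : Clp S (qNat i₀ g v l p h)) : p₁ - ((v : ℝ) - v') - β ≤ (σ g).th v' := by
  classical
  have hrg := hC.row g hg0 hg1 hgD
  have hlog : 0 < Real.log 2 := Real.log_pos (by norm_num)
  have hlog1 : Real.log 2 ≤ 1 := by
    have := Real.log_two_lt_d9
    linarith only [hlog, this]
  have hv'0 : 0 ≤ v' := (hv₃.trans_lt hv₃').le
  have hv₃0' : (0 : ℝ) ≤ v₃ := by exact_mod_cast hv₃
  have hv₃r : (v₃ : ℝ) < v' := by exact_mod_cast hv₃'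
  have hv'0' : (0 : ℝ) ≤ v' := by exact_mod_cast hv'0
  have hvv' : (v' : ℝ) ≤ v := by exact_mod_cast hvv
  have hl1 : l ≤ 1 := by linarith only [hg1, hpg, hvl, hpp, hv₃0', hv₃r, hvv']
  have hp0 : 0 < p := by linarith only [hβ0, hβl, hvl, hpp, hv₃0', hv₃r, hvv']
  have hp₁0 : 0 < p₁ := by linarith
  have hv1 : (v : ℝ) ≤ 1 := by linarith
  have hv'1 : v' ≤ 1 := by
    have : (v' : ℝ) ≤ 1 := by linarith
    exact_mod_cast this
  have hv₃1 : v₃ ≤ 1 := hv₃'.le.trans hv'1
  have hc2 : c ≤ 3 / 2 := by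
    have h1 := hC.tail 0 le_rfl zero_le_one
    have h2 := hC.mono 0 1 le_rfl zero_le_one le_rfl
    linarith only [h1, h2]
  refine le_of_forall_pos_le_add fun x hx => ?_
  have goal : p₁ - ((v : ℝ) - v') - β - x ≤ (σ g).th v' := by
    refine th_of_lab hC.ne hC.st hg1 hrg hv'0 (by linarith only [hpg, hβ0, hβl, hvl, hpp, hvv']) (by linarith only [hpg, hβ0, hpp, hvv', hx]) ?_
    obtain ⟨h₂, hh₂, hline⟩ := line_row hC hg1 hrg hpi
    obtain ⟨s₀, hs₀⟩ : ∃ s₀, s₀ = (c * (g - p₁) - 9 * (g - p) - 3 * h -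
      2 * ((v : ℝ) - v') - β) * Real.log 2 := ⟨_, rfl⟩
    have hs0 : 0 < s₀ := by rw [hs₀]; exact mul_pos (by linarith only [hnum]) hlog
    obtain ⟨N, V, V', hN, hKN, hV, hV'⟩ := mesh_two (hv'0.trans hvv) hv'0
      (80 / s₀ + 4 / (l - β) + 12 / x + 2 / l + 2 / (p - p₁ - (v - v')) + 2 / p₁)
    have hN' : (0 : ℝ) < N := by exact_mod_cast hN
    have t0 : 0 < p - p₁ - ((v : ℝ) - v') := by linarith only [hpp]
    have q1 : 0 < 80 / s₀ := by positivity
    have q2 : 0 < 4 / (l - β) := div_pos (by norm_num) (by linarith only [hβl])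
    have q3 : 0 < 12 / x := by positivity
    have q4 : 0 < 2 / l := div_pos (by norm_num) (by linarith only [hβ0, hβl])
    have q5 : 0 < 2 / (p - p₁ - ((v : ℝ) - v')) := div_pos (by norm_num) t0
    have q6 : 0 < 2 / p₁ := by positivity
    have n1 : 80 ≤ N * s₀ := by
      have : 80 / s₀ ≤ N := by linarith only [hKN, q2, q3, q4, q5, q6]
      rwa [div_le_iff₀ hs0] at this
    have n2 : 4 ≤ N * (l - β) := by
      have : 4 / (l - β) ≤ N := by linarith only [hKN, q1, q3, q4, q5, q6]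
      rwa [div_le_iff₀ (by linarith only [hβl])] at this
    have n3 : 12 ≤ N * x := by
      have : 12 / x ≤ N := by linarith only [hKN, q1, q2, q4, q5, q6]
      rwa [div_le_iff₀ hx] at this
    have n4 : 2 ≤ N * l := by
      have : 2 / l ≤ N := by linarith only [hKN, q1, q2, q3, q5, q6]
      rwa [div_le_iff₀ (by linarith only [hβ0, hβl])] at this
    have n6 : 2 ≤ N * (p - p₁ - ((v : ℝ) - v')) := by
      have : 2 / (p - p₁ - ((v : ℝ) - v')) ≤ N := by linarith only [hKN, q1, q2, q3, q4, q6]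
      rwa [div_le_iff₀ t0] at this
    have n7 : 2 ≤ N * p₁ := by
      have : 2 / p₁ ≤ N := by linarith only [hKN, q1, q2, q3, q4, q5]
      rwa [div_le_iff₀ hp₁0] at this
    have n8 : 0 ≤ (N : ℝ) * (v - v') := mul_nonneg hN'.le (by linarith only [hvv'])
    have n9 : (N : ℝ) * p ≤ N * 1 := mul_le_mul_of_nonneg_left (by linarith only [hg1, hpg]) hN'.le
    have n10 : (N : ℝ) * (v + l) < N * p₁ := mul_lt_mul_of_pos_left hvl hN'
    have n11 : (N : ℝ) * (v - v') ≤ N * β := mul_le_mul_of_nonneg_left hβv hN'.le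
    obtain ⟨L, hL1, hL2⟩ := nat_near (s := l * N - 1) (by linarith only [hg1, hpg, hβ0, hβl, hvl, hpp, hv₃0', hv₃r, hvv', n2, n8, n11])
    obtain ⟨pp, hpp1, hpp2⟩ := nat_near (s := p * N - 1) (by linarith only [hg1, hpg, hβ0, hβl, hvl, hpp, hv₃0', hv₃r, hvv', hV, n2, n6, n8, n10, n11])
    obtain ⟨b, hb1, hb2⟩ := nat_near (s := β * N + 1) (by positivity)
    obtain ⟨Pn, hPn1, hPn2⟩ := nat_near (s := p₁ * N) (by positivity)
    have hVV : V' ≤ V := by
      have : (V' : ℝ) ≤ V := by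
        rw [hV, hV']
        exact mul_le_mul_of_nonneg_right hvv' hN'.le
      exact_mod_cast this
    have hbL : b < L := by
      have : (b : ℝ) < L := by linarith only [hg1, hpg, hβ0, hβl, hvl, hpp, hv₃0', hv₃r, hvv', n2, hL1, hb2]
      exact_mod_cast this
    obtain ⟨y, hy⟩ : ∃ y, y = V - V' := ⟨_, rfl⟩
    have hyr : (y : ℝ) = ((v : ℝ) - v') * N := by
      rw [hy, Nat.cast_sub hVV, hV, hV']
      ring
    have hVy : V - y = V' := by omega
    have hyb : y ≤ b + 1 := by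
      have : (y : ℝ) ≤ ((b + 1 : ℕ) : ℝ) := by push_cast; linarith only [hg1, hpg, hβ0, hβl, hvl, hpp, hv₃0', hv₃r, hvv', n11, hb1, hyr]
      exact_mod_cast this
    have hVL : V + L < Pn := by
      have : ((V + L : ℕ) : ℝ) < Pn := by push_cast; linarith only [hV, n10, hL2, hPn1]
      exact_mod_cast this
    have hPy : Pn + y ≤ pp := by
      have : ((Pn + y : ℕ) : ℝ) ≤ pp := by push_cast; linarith only [n6, hpp1, hPn2, hyr]
      exact_mod_cast this
    have hppN : pp ≤ N := by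
      have : (pp : ℝ) ≤ N := by linarith only [hg1, hpg, hβ0, hβl, hvl, hpp, hv₃0', hv₃r, hvv', n9, hpp2]
      exact_mod_cast this
    have hQ : ∀ J : ℕ, pp * (J / N) ≤ ⌊g * J⌋₊ ∧ ⌊g * J⌋₊ ≤ J := by
      intro J
      refine ⟨Nat.le_floor ?_, floor_row_one hg1 J⟩
      refine mesh_le hN ?_
      have : (N : ℝ) * p ≤ N * g := mul_le_mul_of_nonneg_left hpg hN'.le
      linarith only [hg1, hpg, hβ0, hβl, hvl, hpp, hv₃0', hv₃r, hvv', hpp2, this]
    -- the claims
    have hclaims : Clp S (fun J F A => ∀ q : Fin 3 × Fin 3,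
        (∀ j : Fin 3, j = i₀ ∨ j = q.1 ∨ j = q.2) →
        LineAt i₀ (1 / 2 ^ ⌊h₂ * J⌋₊) (Pool.KS6.ptq F ⌊g * J⌋₊) F.d A →
        RotU i₀ (1 / 2 ^ ((L - b) * (J / N))) (1 / 2 ^ ((L - b) * (J / N)))
          (Pool.KS6.ptq F ⌊g * J⌋₊) (slam F ((V - y) * (J / N))) F.d A → ∀ z : F.Ω → Pln,
        (∀ ω, A ω → Inc i₀ q.1 q.2 (V * (J / N)) (L * (J / N)) (pp * (J / N)) 2 (z ω) (F.t ω)
          (F.x ω) (F.d ω)) →
        (∃ φ : (Fin 3 → ℤ) × (ℕ × F.ζ) → Pln, ∀ ω, A ω → z ω =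
          φ (Pool.KS6.ptq F ⌊g * J⌋₊ ω)) →
        3 * ((((⌊g * J⌋₊ : ℕ) : ℝ) - (V * (J / N) : ℕ) + (((⌊g * J⌋₊ : ℕ) : ℝ) -
            ((V + L) * (J / N) : ℕ))) * Real.log 2 -
            CH (Pool.Agent.H49.Ent.cond F.p A True) (F.X ⌊g * J⌋₊) (fun ω => (z ω, F.W ω))) +
          ((((2 * y + b + 1) * (J / N) : ℕ) : ℝ) + 3 * (((⌊g * J⌋₊ : ℕ) : ℝ) -
            (pp * (J / N) : ℕ))) * Real.log 2 +
          CH (Pool.Agent.H49.Ent.cond F.p A True) (F.X ⌊g * J⌋₊)
            (fun ω => (F.X (Pn * (J / N)) ω, F.W ω)) ≤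
          3 * (((⌊g * J⌋₊ : ℕ) : ℝ) - (Pn * (J / N) : ℕ)) * Real.log 2 - s₀ / 8 * J →
        LABq F ⌊g * J⌋₊ i₀ q.1 q.2 ((V - y) * (J / N)) ((L - b - 1) * (J / N))
          ((Pn - y - b - 2) * (J / N)) 2 A) := by
      refine Clp.finite fun q => Clp.cnd fun hq => ?_
      exact clp_of_clm hC.st (Claim.clm (Pool.KS6.lcq_thm a R hC.a1.le hC.R0 hC.ub h₂ (s₀ / 8)
        2 hh₂ (by positivity) (by norm_num) N i₀ q.1 q.2 hq V y L pp Pn b (by omega) hyb hbL hVL
        hPy hppN (fun J => ⌊g * J⌋₊) hQ))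
    obtain ⟨P, hP⟩ : ∃ P : ℝ, P = ((Pn : ℝ) - 1) / N := ⟨_, rfl⟩
    have hP0 : 0 ≤ P := by
      rw [hP]
      exact div_nonneg (by linarith only [hg1, hpg, hβ0, hβl, hvl, hpp, hv₃0', hv₃r, hvv', hV, n2, n8, n10, n11, hPn1]) hN'.le
    have hPg : P ≤ g := by
      rw [hP, div_le_iff₀ hN']
      have : p₁ * N ≤ g * N := mul_le_mul_of_nonneg_right (by linarith only [hpg, hpp, hvv']) hN'.le
      linarith only [hg1, hpg, hβ0, hβl, hvl, hpp, hv₃0', hv₃r, hvv', hPn2, this]
    have hP2 : p₁ - 2 / N ≤ P := by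
      rw [hP, le_div_iff₀ hN', sub_mul, div_mul_cancel₀ _ hN'.ne']
      linarith only [hPn1]
    have hrows := plsC_of hC hg1 hpl P hP0 hPg (s₀ / 8) (by positivity)
    obtain ⟨J₁, hJ₁⟩ := exists_nat_gt ((N : ℝ) * (N + 5) + (9 * N + 3) / (s₀ / 2) +
      2 * N / x + N / (v' - v₃) + 1)
    have c5 : Clp S (fun J F A => 0 < Pe F.p A) :=
      Clp.base 1 one_pos 0 fun J _ F A hA => lt_of_lt_of_le (Real.exp_pos _)
        (hC.st _ _ _ _ hA).2.2.2
    have c6 := (hrg.rot v₃ hv₃ hv₃1).1 ((σ g).rot v₃ - (l - β)) (by linarith only [hrot])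
    refine Clp.mono (J₂ := J₁) (((hclaims.and hline).and (hnat.and c5)).and (hrows.and c6)) ?_
    rintro J hJ F A ⟨⟨⟨d1, d2⟩, ⟨iu, iN, hi, z, hI, ⟨φ, hφ⟩, hfull⟩, hA⟩, d5, d6⟩
    have hJr : (N : ℝ) * (N + 5) + (9 * N + 3) / (s₀ / 2) + 2 * N / x + N / (v' - v₃) + 1 < J :=
      hJ₁.trans_le (by exact_mod_cast hJ)
    have j0 : 0 ≤ (N : ℝ) * (N + 5) := by positivity
    have j1 : 0 < (9 * N + 3) / (s₀ / 2) := by positivity
    have j2 : 0 < 2 * N / x := by positivity
    have j2' : 0 < N / ((v' : ℝ) - v₃) := div_pos hN' (by linarith only [hv₃r])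
    have j3 : (N : ℝ) * (N + 5) ≤ J := by linarith only [hg1, hpg, hβ0, hβl, hvl, hpp, hv₃0', hv₃r, hvv', hJr, j1, j2, j2']
    have j3' : (N : ℝ) * (N + 1) ≤ J := by linarith only [hg1, hpg, hβ0, hβl, hvl, hpp, hv₃0', hv₃r, hvv', hV, n2, n6, n8, n9, n10, n11, hJr, j1, j2, j2']
    exact by
     have j4 : 9 * N + 3 ≤ s₀ / 2 * J := by
       have : (9 * N + 3) / (s₀ / 2) ≤ J := by linarith only [hg1, hpg, hβ0, hβl, hvl, hpp, hv₃0', hv₃r, hvv', hJr, j0, j2, j2']
       exact by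
        rw [div_le_iff₀ (by positivity)] at this
        linarith only [this]
     exact by
      have j5 : 2 * N ≤ x * J := by
        have : 2 * N / x ≤ J := by linarith only [hg1, hpg, hβ0, hβl, hvl, hpp, hv₃0', hv₃r, hvv', hJr, j0, j1, j2']
        exact by
         rw [div_le_iff₀ hx] at this
         linarith only [this]
      exact by
       have j6 : (N : ℝ) ≤ (v' - v₃) * J := by
         have : N / ((v' : ℝ) - v₃) ≤ J := by linarith only [hg1, hpg, hβ0, hβl, hvl, hpp, hv₃0', hv₃r, hvv', hJr, j0, j1, j2]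
         exact by
          rw [div_le_iff₀ (by linarith only [hv₃r])] at this
          linarith only [this]
       exact by
        have hJ0 : (0 : ℝ) ≤ J := Nat.cast_nonneg J
        have k5 : (N : ℝ) + 5 ≤ J / N := by
          rw [le_div_iff₀ hN']
          linarith only [hg1, hpg, hβ0, hβl, hvl, hpp, hv₃0', hv₃r, hvv', hJr, j1, j2, j2']
        exact by
         have hs4 : 20 * ((J : ℝ) / N) ≤ s₀ / 4 * J := by
           rw [mul_div_assoc', div_le_iff₀ hN']
           have := mul_le_mul_of_nonneg_right n1 hJ0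
           linarith only [this]
         have hx3 : 6 * ((J : ℝ) / N) ≤ x / 2 * J := by
           rw [mul_div_assoc', div_le_iff₀ hN']
           have := mul_le_mul_of_nonneg_right n3 hJ0
           linarith only [this]
         -- the numbers
         obtain ⟨u, hu⟩ : ∃ u, u = J / N := ⟨_, rfl⟩
         have m5 := mesh_ge (J := J) (k := V) (s := v) (b := 0) hN hv1 (by linarith only [hv₃0', hv₃r, hvv']) le_rfl
           (by rw [hV]; linarith only)
         have m6 := mesh_ge (J := J) (k := V + L) (s := v + l) (b := 2) hN (by linarith only [hg1, hpg, hvl, hpp, hvv'])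
           (by linarith only [hβ0, hβl, hv₃0', hv₃r, hvv']) (by norm_num) (by rw [Nat.cast_add]; linarith only [hV, hL1])
         have m7 := mesh_ge (J := J) (k := pp) (s := p) (b := 2) hN (by linarith only [hg1, hpg]) (by linarith only [hβ0, hβl, hvl, hpp, hv₃0', hv₃r, hvv'])
           (by norm_num) (by linarith only [hpp1])
         have m8 : (((2 * y + b + 1) * (J / N) : ℕ) : ℝ) ≤ ((2 * ((v : ℝ) - v') + β) + 2 / N) * J :=
           mesh_le hN (by
             rw [add_mul _ (2 / (N : ℝ)), div_mul_cancel₀ _ hN'.ne']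
             push_cast
             linarith only [hb2, hyr])
         exact by
          have m9 : (((L - b) * (J / N) : ℕ) : ℝ) ≤ (l - β) * J := mesh_le hN (by
            rw [Nat.cast_sub hbL.le]
            linarith only [hg1, hpg, hβ0, hβl, hvl, hpp, hv₃0', hv₃r, hvv', hL2, hb1])
          exact by
           have m10 := mesh_le (J := J) (k := V') (s := v') hN hV'.le
           have m11 := mesh_ge (J := J) (k := V') (s := v') (b := 0) hN (by linarith only [hg1, hpg, hβ0, hβl, hvl, hpp, hvv']) hv'0' le_rfl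
             (by rw [hV']; linarith only)
           have m12 := mesh_le (J := J) (k := Pn) (s := p₁) hN hPn2
           have m13 := mesh_ge (J := J) (k := Pn) (s := (Pn : ℝ) / N) (b := 0) hN (by
             rw [div_le_one hN']
             linarith only [hg1, hpg, hβ0, hβl, hvl, hpp, hv₃0', hv₃r, hvv', n6, n8, n9, hPn2]) (by positivity) le_rfl (by
             rw [div_mul_cancel₀ _ hN'.ne']
             linarith only)
           exact by
            rw [← hu] at m5 m6 m7 m8 m9 m10 m11 m12 m13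
            have e3 : ((2 * ((v : ℝ) - v') + β) + 2 / N) * J = (2 * ((v : ℝ) - v') + β) * J +
              2 * (J / N) := by ring
            rw [e3] at m8
            obtain ⟨G, hG⟩ : ∃ G, G = ⌊g * J⌋₊ := ⟨_, rfl⟩
            have f6 : (G : ℝ) ≤ g * J := by rw [hG]; exact Nat.floor_le (by positivity)
            have f7 : g * J - 1 ≤ G := by
              rw [hG]
              have := Nat.lt_floor_add_one (g * (J : ℝ))
              linarith only [this]
            have hpG : ⌊p * J⌋₊ ≤ G := by rw [hG]; exact floor_row hpg J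
            have hVJ : V' * u ≤ ⌊(v' : ℝ) * J⌋₊ := Nat.le_floor m10
            -- the frames on the mesh
            have hrotm : RotU i₀ (1 / 2 ^ ((L - b) * u)) (1 / 2 ^ ((L - b) * u))
                (Pool.KS6.ptq F ⌊g * J⌋₊) (slam F ((V - y) * u)) F.d A := by
              have e1 : (σ g).rot v₃ - ((σ g).rot v₃ - (l - β)) = l - β := by ring
              rw [e1] at d6
              rcases d6 with d6 | ⟨-, d6⟩
              · linarith only [hβl, d6]
              rw [hVy]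
              have h1 : ⌊(v₃ : ℝ) * J⌋₊ ≤ V' * u := by
                have h2 : (⌊(v₃ : ℝ) * J⌋₊ : ℝ) ≤ v₃ * J := Nat.floor_le (by positivity)
                have h3 : (⌊(v₃ : ℝ) * J⌋₊ : ℝ) ≤ ((V' * u : ℕ) : ℝ) := by
                  refine h2.trans (le_trans ?_ m11)
                  linarith only [j6]
                exact_mod_cast h3
              have h4 : V' * u ≤ J := hVJ.trans (floor_row_one (by linarith only [hg1, hpg, hβ0, hβl, hvl, hpp, hvv']) J)
              have h5 := RotU.window (wn' := slam F (V' * u))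
                (φ := fun s => (s.1, s.2.1, s.2.2 / 2 ^ (V' * u - ⌊(v₃ : ℝ) * J⌋₊)))
                (fun ω => slam_coarse F h1 h4 ω) d6
              have h6 : (L - b) * u ≤ ⌊(l - β) * J⌋₊ := Nat.le_floor m9
              exact h5.mono (inv_mono h6) (inv_mono h6)
            -- the label on the mesh
            exact by
             have hIm : ∀ ω, A ω → Inc i₀ iu iN (V * u) (L * u) (pp * u) 2 (z ω) (F.t ω) (F.x ω)
                 (F.d ω) := fun ω hω => by
               rw [hu]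
               exact mesh_inc hN hV (by linarith only [hv₃0', hv₃r, hvv']) hv1 (by linarith only [hg1, hpg, hβ0, hβl, hvl, hpp, hv₃0', hv₃r, hvv', hL2]) hpp2 j3'
                 (by norm_num) (hI ω hω)
             exact by
              have hent := nat_mono F hA hpG z z (fun ω ω' _ _ h1 _ => h1)
              have hPP : ⌊P * J⌋₊ ≤ Pn * u := by
                have h1 : (⌊P * J⌋₊ : ℝ) ≤ P * J := Nat.floor_le (by positivity)
                have h2 : P * J = (Pn : ℝ) / N * J - J / N := by rw [hP]; ring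
                have h3 : (⌊P * J⌋₊ : ℝ) ≤ ((Pn * u : ℕ) : ℝ) := by
                  refine h1.trans (le_trans ?_ m13)
                  rw [h2]
                  linarith only [hg1, hpg, hβ0, hβl, hvl, hpp, hv₃0', hv₃r, hvv', k5]
                exact_mod_cast h3
              exact by
               have hrw := rows_mono F hA (G := G) hPP
               rw [← hG] at d5
               have m5' : (v : ℝ) * J - N ≤ ((V * u : ℕ) : ℝ) := by linarith only [m5]
               have hnumJ := lc_num hlog.le hlog1 hC.c0.le (by linarith only [hg1, hpg, hβ0, hβl, hvl, hpp, hv₃0', hv₃r, hvv', hc2]) hN' hJ0 f6 f7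
                 m5' m6 m7 m8 m12 hP2 hs₀ hs4 j4 (hfull.trans hent) (hrw.trans d5)
               have hlab := d1 (iu, iN) hi d2 (by rw [← hu]; exact hrotm) z (by rw [← hu]; exact hIm)
                 ⟨φ, hφ⟩ (by rw [← hG, ← hu]; exact hnumJ)
               rw [← hu] at hlab
               refine ⟨iu, iN, hi, (V - y) * u, (L - b - 1) * u, (Pn - y - b - 2) * u, hlab, ?_, ?_⟩
               · rw [hVy]
                 exact hVJ
               · rw [hVy]
                 by_cases hneg : p₁ - ((v : ℝ) - v') - β - x ≤ 0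
                 · have : ⌊(p₁ - ((v : ℝ) - v') - β - x) * J⌋₊ = 0 :=
                     Nat.floor_of_nonpos (mul_nonpos_of_nonpos_of_nonneg hneg hJ0)
                   rw [this]
                   omega
                 push Not at hneg
                 have hsz : y + b + 2 ≤ Pn := by
                   have h1 : 0 < (p₁ - ((v : ℝ) - v') - β - x) * N := mul_pos hneg hN'
                   have : ((y + b + 2 : ℕ) : ℝ) ≤ Pn := by
                     push_cast
                     linarith only [hg1, hpg, hβ0, hβl, hvl, hpp, hv₃0', hv₃r, hvv', n3, hb2, hPn1, hyr, h1]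
                   exact by
                    exact_mod_cast this
                 exact by
                  have hsub : Pn - y - b - 2 = Pn - (y + b + 2) := by omega
                  have m14 := mesh_ge (J := J) (k := Pn - y - b - 2) (s := p₁ - ((v : ℝ) - v') - β)
                    (b := 4) hN (by linarith only [hg1, hpg, hβ0, hpp, hvv']) (by linarith only [hβl, hvl, hv₃0', hv₃r]) (by norm_num) (by
                      rw [hsub, Nat.cast_sub hsz]
                      push_cast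
                      linarith only [hb2, hPn1, hyr])
                  exact by
                   rw [← hu] at m14
                   have h1 : (⌊(p₁ - ((v : ℝ) - v') - β - x) * J⌋₊ : ℝ) ≤
                       (p₁ - ((v : ℝ) - v') - β - x) * J := Nat.floor_le (mul_nonneg hneg.le hJ0)
                   have h2 : ⌊(p₁ - ((v : ℝ) - v') - β - x) * J⌋₊ ≤ (Pn - y - b - 2) * u := by
                     have h3 : (⌊(p₁ - ((v : ℝ) - v') - β - x) * J⌋₊ : ℝ) ≤
                         (((Pn - y - b - 2) * u : ℕ) : ℝ) := by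
                       refine h1.trans (le_trans ?_ m14)
                       linarith only [hg1, hpg, hβ0, hβl, hvl, hpp, hv₃0', hv₃r, hvv', hV, n2, n6, n8, n9, n10, n11, k5, hx3]
                     exact by
                      exact_mod_cast h3
                   exact by
                    omega
  exact by
   linarith only [goal]

end Pool.S6C
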