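import Pool.Agent.H5.S6.Lz
import Pool.Agent.H51.S6.Loc

/-!
# LEMMA C at the class level

At the Pliss rows `Q` the critical window has a positive lower left derivative.
-/

set_option autoImplicit false

namespace Pool.S6C

open Finset Real
open Pool.Agent.H49.Ent Pool.Agent.H32.Dense Pool.STK Pool.KA Pool.KSAT Pool.K2S Pool.PB Pool.KS6

/-- **Core of LEMMA C.** -/
theorem lemc_core (hU : USTStmt) (hE : EPFStmt) (hZ : LCZStmt) (hT : TRivStmt) {S : PCl 3}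
    {a R h₁ : ℝ} {i₀ : Fin 3} {c s₂ : ℝ} {r : ℝ → ℝ} {D : Set ℝ} {σ : ℝ → Row}
    (hC : Cs S a R h₁ i₀ c s₂ r D σ) {act : ℚ → ℝ} {κ : ℝ} (hAD : ActD S i₀ act κ) :
    ∃ C : ℝ, 0 < C ∧ ∀ g ws : ℝ, PR c r D σ g ws →
    ∀ v' : ℚ, 0 < v' → (v' : ℝ) < ws → g - C * (ws - v') ≤ (σ g).th v' := by
  have ha0 : 0 < a := by linarith [hC.a1]
  have hRa : 0 < R / a := div_pos hC.R0 ha0
  have hlog : 0 < Real.log 2 := Real.log_pos (by norm_num)
  have hlog1 : Real.log 2 ≤ 1 := by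
    have := Real.log_two_lt_d9
    linarith only [hlog, this]
  have hc0 := hC.c0
  have hc2 : c ≤ 3 / 2 := by
    have h1 := hC.tail 0 le_rfl zero_le_one
    have h2 := hC.mono 0 1 le_rfl zero_le_one le_rfl
    linarith
  obtain ⟨B, hB⟩ : ∃ B, B = 7 * (a / R) + 2 := ⟨_, rfl⟩
  have haR : 0 < a / R := div_pos ha0 hC.R0
  have hB0 : 2 < B := by rw [hB]; linarith only [haR]
  have hRB : R / a * (7 * (a / R)) = 7 := by
    have := hC.R0.ne'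
    field_simp
  obtain ⟨C₁, hC₁⟩ : ∃ C₁, C₁ = (8 + 3 * B) / c := ⟨_, rfl⟩
  have hC₁c : c * C₁ = 8 + 3 * B := by rw [hC₁]; field_simp
  have hC₁5 : 5 < C₁ := by
    rw [hC₁, lt_div_iff₀ hc0]
    linarith only [hc2, hB, haR]
  refine ⟨C₁ + B + 2, by linarith only [hB, haR, hC₁5], fun g ws hPR v' hv'0 hv'w => ?_⟩
  obtain ⟨Δ, hΔ⟩ : ∃ Δ, Δ = ws - v' := ⟨_, rfl⟩
  have hΔ0 : 0 < Δ := by rw [hΔ]; linarith only [hv'w]
  rw [← hΔ]
  have hg1 : g ≤ 1 := hPR.lt1.le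
  have hg0 : 0 < g := by linarith only [hPR, hPR.half]
  have hgD := hPR.nD
  have hrg := hC.row g hg0 hg1 hgD
  have hr1 := hC.row 1 one_pos le_rfl hC.D1
  have hv'0' : (0 : ℝ) < v' := by exact_mod_cast hv'0
  -- the trivial case
  have hexp : (C₁ + B + 2) * Δ = C₁ * Δ + B * Δ + 2 * Δ := by ring
  by_cases htr : g - (C₁ + B + 2) * Δ ≤ v'
  · by_cases hvg : (v' : ℝ) ≤ g
    · exact htr.trans (th_ge hC.ne hC.st hg1 hrg v' hv'0.le hvg)
    · -- windows above `g`: not below the critical window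
      push Not at hvg
      exfalso
      obtain ⟨e, he, hlt⟩ := hPR.isWs.2 v' hv'w
      obtain ⟨v, v'', hv0, -, -, hvg', -, -, hth⟩ := hPR.pk' e he
      have := hlt v hv0.le (by linarith only [hvg, hvg'])
      linarith only [hth, this]
  push Not at htr
  have hBΔ : 0 < B * Δ := mul_pos (by linarith only [hB, haR]) hΔ0
  have hC₁Δ : 5 * Δ < C₁ * Δ := mul_lt_mul_of_pos_right hC₁5 hΔ0
  have h2BΔ : 2 * Δ < B * Δ := mul_lt_mul_of_pos_right hB0 hΔ0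
  -- the windows with planks of thickness almost `g`
  obtain ⟨e₁, he₁, hlt⟩ := hPR.isWs.2 (ws - Δ / 2) (by linarith only [hv'w, hΔ])
  obtain ⟨e, he⟩ : ∃ e, e = min e₁ (Δ / 8) := ⟨_, rfl⟩
  have he0 : 0 < e := by rw [he]; exact lt_min he₁ (by linarith only [hv'w, hΔ])
  have hee : e ≤ e₁ := by rw [he]; exact min_le_left _ _
  have heΔ : e ≤ Δ / 8 := by rw [he]; exact min_le_right _ _
  obtain ⟨v₀, v₀', hv₀0, hv₀v, hv₀1, hv₀g, hrg', hr1', hth₀⟩ := hPR.pk' e he0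
  obtain ⟨v₁, hv₁0, hv₁1, hv₁w, hth₁⟩ := hPR.isWs.1 e he0 (ws + Δ / 2) (by linarith only [he0, heΔ])
  have hbig : ∀ w : ℚ, 0 ≤ w → g - e ≤ (σ g).th w → ws - Δ / 2 < w := by
    intro w hw hth
    by_contra hcon
    push Not at hcon
    have := hlt w hw hcon
    linarith only [hee, hth, this]
  have hb₀ := hbig v₀ hv₀0.le hth₀
  have hb₁ := hbig v₁ hv₁0 hth₁
  obtain ⟨u₁, hu₁⟩ : ∃ u₁, u₁ = min v₀ v₁ := ⟨_, rfl⟩
  have hu₁a : u₁ ≤ v₀ := by rw [hu₁]; exact min_le_left _ _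
  have hu₁b : u₁ ≤ v₁ := by rw [hu₁]; exact min_le_right _ _
  have hu₁c : u₁ = v₀ ∨ u₁ = v₁ := by
    rw [hu₁]
    exact min_choice v₀ v₁
  have hu₁t : g - e ≤ (σ g).th u₁ ∧ ws - Δ / 2 < u₁ := by
    rcases hu₁c with h | h
    · rw [h]; exact ⟨hth₀, hb₀⟩
    · rw [h]; exact ⟨hth₁, hb₁⟩
  obtain ⟨hu₁t, hu₁w⟩ := hu₁t
  have hv'u : (v' : ℝ) < u₁ := by linarith only [hΔ, he0, heΔ, hu₁w]
  have hu₁0 : 0 < u₁ := by
    have : (0 : ℝ) < u₁ := by linarith only [hΔ, hv'0', he0, heΔ, hu₁w]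
    exact_mod_cast this
  have hu₁g : (u₁ : ℝ) < g := by
    have : (u₁ : ℝ) ≤ v₀ := by exact_mod_cast hu₁a
    linarith only [hv₀g, this]
  have hu₁s : (u₁ : ℝ) < ws + Δ / 2 := by
    have : (u₁ : ℝ) ≤ v₁ := by exact_mod_cast hu₁b
    linarith only [hv₁w, this]
  have hu₁v : (u₁ : ℝ) < v₀' := by exact_mod_cast hu₁a.trans_lt hv₀v
  obtain ⟨u₂, hu₂a, hu₂b⟩ := exists_rat_btwn (lt_min (lt_min hu₁g hu₁s) hu₁v)
  have hu₂g : (u₂ : ℝ) < g := hu₂b.trans_le ((min_le_left _ _).trans (min_le_left _ _))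
  have hu₂s : (u₂ : ℝ) < ws + Δ / 2 := hu₂b.trans_le ((min_le_left _ _).trans (min_le_right _ _))
  have hu₂v : u₂ < v₀' := by exact_mod_cast hu₂b.trans_le (min_le_right _ _)
  have hu₁₂ : u₁ < u₂ := by exact_mod_cast hu₂a
  have hu₂0 : 0 < u₂ := hu₁0.trans hu₁₂
  have hrotg : (σ g).rot u₂ < (σ g).pi :=
    lt_of_le_of_lt (rot_window hC.ne hrg hu₂0.le hu₂v.le hv₀1.le) hrg'
  have hrot1 : (σ 1).rot u₂ < (σ 1).pi :=
    lt_of_le_of_lt (rot_window hC.ne hr1 hu₂0.le hu₂v.le hv₀1.le) hr1'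
  have hpi : 0 < (σ g).pi :=
    lt_of_le_of_lt (num_nonneg hC.ne (hrg.rot u₂ hu₂0.le (hu₂v.le.trans hv₀1.le))) hrotg
  obtain ⟨p, hp⟩ : ∃ p, p = g - 2 * e := ⟨_, rfl⟩
  -- the natural label
  obtain ⟨v, l, hv1, hv2, hvl, hlr, hnat⟩ := natq hU hE hC hAD (g := g) (p := p) (h := Δ / 8) hg0 hg1
    hgD hu₁0 hu₁₂ hu₂g.le hrot1 hrotg (by linarith only [hv'0', htr, hC₁Δ, h2BΔ, he0, heΔ, hp]) (by linarith only [hg1, he0, hp, hPR.lt1]) (by linarith only [he0, hp])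
    (by linarith only [he0, hu₁t, hp]) (by linarith only [he0, heΔ]) (by linarith only [hΔ, htr, hC₁Δ, h2BΔ, he0, heΔ, hu₂s, hp])
  have hv1' : (u₁ : ℝ) < v := by exact_mod_cast hv1
  have hv2' : (v : ℝ) < u₂ := by exact_mod_cast hv2
  have hvv' : (v' : ℝ) < v := hv'u.trans hv1'
  have hvv : v' ≤ v := by exact_mod_cast hvv'.le
  have hy : (v : ℝ) - v' < 3 / 2 * Δ := by linarith only [hΔ, hu₂s, hv2']
  have hpg : p ≤ g := by linarith only [he0, hp]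
  have hgp : g - p ≤ Δ / 4 := by linarith only [heΔ, hp]
  obtain ⟨p₁, hp₁⟩ : ∃ p₁, p₁ = g - C₁ * Δ := ⟨_, rfl⟩
  have hcp : c * (g - p₁) = 8 * Δ + 3 * (B * Δ) := by
    have : c * (g - p₁) = c * C₁ * Δ := by rw [hp₁]; ring
    rw [this, hC₁c]
    ring
  have hfin : p₁ - ((v : ℝ) - v') - B * Δ ≤ (σ g).th v' →
      g - (C₁ + B + 2) * Δ ≤ (σ g).th v' := by
    intro h
    rw [hexp]
    linarith only [hΔ, he0, heΔ, hu₂s, hv2', hp₁, h]
  refine hfin ?_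
  by_cases hlβ : l ≤ B * Δ
  · -- no frame
    have := lz_prd hZ hC (p₁ := p₁) hg0 hg1 hgD hPR.plr hv'0.le hvv hpg (by linarith only [hΔ, htr, h2BΔ, he0, heΔ, hu₂s, hv2', hp₁])
      (by linarith only [hΔ, hC₁Δ, he0, heΔ, hu₂s, hp, hv2', hp₁]) (by linarith only [hΔ, he0, heΔ, hu₂s, hp, hv2', hcp, hlβ]) hnat
    linarith only [h2BΔ, he0, heΔ, this]
  push Not at hlβ
  -- the directions on smaller windows
  have hrot : ∀ w : ℚ, 0 ≤ w → w ≤ v → (v : ℝ) - w ≤ 2 * Δ → ∀ β : ℝ,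
      (7 * (a / R) + 1) * Δ ≤ β → β < l → l - β ≤ (σ g).rot w := by
    intro w hw hwv hwΔ β hβ hβl
    have hβ0 : 0 < β := lt_of_lt_of_le (mul_pos (by linarith only [haR, hg1, hv'0', htr, hC₁Δ, h2BΔ, he0, heΔ]) hΔ0) hβ
    refine lb_prod hC hg0 hg1 hgD hpi hw hwv hvl hpg hβ0 hβl ?_ hnat
    have h1 : (3 * ((v : ℝ) - w) + 3 * (g - p) + Δ / 8) * Real.log 2 ≤ 7 * Δ * 1 := by
      refine mul_le_mul (by linarith only [he0, heΔ, hp, hwΔ]) hlog1 hlog.le (by linarith only [he0, heΔ])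
    have h2 : R / a * ((7 * (a / R) + 1) * Δ) ≤ R / a * β := mul_le_mul_of_nonneg_left hβ hRa.le
    have h3 : R / a * ((7 * (a / R) + 1) * Δ) = R / a * (7 * (a / R)) * Δ + R / a * Δ := by ring
    rw [h3, hRB] at h2
    have h4 : 0 < R / a * Δ := mul_pos hRa hΔ0
    linarith only [h1, h2, h4]
  have hBe : B * Δ = (7 * (a / R) + 1) * Δ + Δ := by rw [hB]; ring
  by_cases hvl1 : (v : ℝ) + l < p₁
  · -- frames
    obtain ⟨v₃, hv₃a, hv₃b⟩ := exists_rat_btwn (show max (0 : ℝ) ((v' : ℝ) - Δ / 2) < v' from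
      max_lt hv'0' (by linarith only [he0, heΔ]))
    have hv₃0 : (0 : ℝ) < v₃ := (le_max_left _ _).trans_lt hv₃a
    have hv₃Δ : (v' : ℝ) - Δ / 2 < v₃ := (le_max_right _ _).trans_lt hv₃a
    have hv₃0' : 0 ≤ v₃ := by exact_mod_cast hv₃0.le
    have hv₃v : v₃ < v' := by exact_mod_cast hv₃b
    have hr3 := hrot v₃ hv₃0' (hv₃v.le.trans hvv) (by linarith only [hΔ, hu₂s, hv2', hv₃Δ]) (B * Δ - Δ / 2)
      (by linarith only [he0, heΔ, hBe]) (by linarith only [he0, heΔ, hlβ])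
    have := lc_prd hC (p₁ := p₁) (β := B * Δ) hg0 hg1 hgD hPR.plr hpi hv₃0' hv₃v hvv hpg
      (by linarith only [hΔ, h2BΔ, he0, heΔ, hu₂s, hv2']) hBΔ hlβ hvl1 (by linarith only [hΔ, hC₁Δ, he0, heΔ, hu₂s, hp, hv2', hp₁]) (by linarith only [he0, heΔ, hr3]) (by linarith only [hΔ, h2BΔ, he0, heΔ, hu₂s, hp, hv2', hcp]) hnat
    exact this
  · -- frames up to the thickness
    push Not at hvl1
    have hr3 := hrot v' hv'0.le hvv (by linarith only [hΔ, he0, heΔ, hu₂s, hv2']) (B * Δ) (by linarith only [he0, heΔ, hBe]) hlβ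
    have htriv := hT S a R h₁ i₀ c s₂ r D σ hC g hg0.le hg1 (σ g) hrg v' hv'0.le (by linarith only [htr, hC₁Δ, h2BΔ, he0, heΔ])
    refine le_trans (le_min ?_ ?_) htriv
    · linarith only [hΔ, hC₁Δ, h2BΔ, he0, heΔ, hu₁w, hv1', hp₁]
    · linarith only [hvl1, hr3]

/-- **LEMMA C.** -/
theorem lemc_of (hA : ACTStmt) (hU : USTStmt) (hE : EPFStmt) (hZ : LCZStmt) (hT : TRivStmt) :
    LEMCStmt := by
  intro S₀ a R h₁ i₀ c s₂ r D σ hC₀ K W hK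
  obtain ⟨S, act, κ, hsub, hAD⟩ := actD_of hA hC₀
  have hC := hC₀.le hsub
  obtain ⟨C, hC0, hcore⟩ := lemc_core hU hE hZ hT hC hAD
  refine ⟨∅, MeasureTheory.measure_empty, fun g hg _ => ⟨C, 1, hC0, one_pos, ?_⟩⟩
  intro g' hg' _ hgg
  by_contra hcon
  push Not at hcon
  have hPR := hK g hg
  have hPR' := hK g' hg'
  have hg1 : g ≤ 1 := hPR.lt1.le
  have hg0 : 0 < g := by linarith [hPR.half]
  obtain ⟨t, ht⟩ : ∃ t, t = W g - (g - g') / C := ⟨_, rfl⟩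
  have hpos : 0 < (g - g') / C := div_pos (by linarith) hC0
  obtain ⟨v', hva, hvb⟩ := exists_rat_btwn (lt_min (max_lt hPR.ws0 (show t < W g by linarith))
    (max_lt hPR'.ws0 (show t < W g' by linarith)))
  have hv0 : (0 : ℝ) < v' := (le_max_left _ _).trans_lt hva
  have hvt : t < v' := (le_max_right _ _).trans_lt hva
  have hvg : (v' : ℝ) < W g := hvb.trans_le (min_le_left _ _)
  have hvg' : (v' : ℝ) < W g' := hvb.trans_le (min_le_right _ _)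
  have hv0' : 0 < v' := by exact_mod_cast hv0
  have h1 := hcore g (W g) hPR v' hv0' hvg
  obtain ⟨e, he, h2⟩ := hPR'.isWs1.2 v' hvg'
  have h3 := h2 v' hv0'.le le_rfl
  -- the window is at most one
  have hv1 : v' ≤ 1 := by
    by_contra hcon1
    push Not at hcon1
    obtain ⟨e₂, he₂, h4⟩ := hPR.isWs.2 v' hvg
    obtain ⟨v, v'', hv0, -, -, hvg', -, -, hth⟩ := hPR.pk' e₂ he₂
    have hcon1' : (1 : ℝ) < v' := by exact_mod_cast hcon1
    have := h4 v hv0.le (by linarith)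
    linarith only [hth, this]
  have h5 := ((rq_thm S a R h₁ i₀ c s₂ r D σ hC g 1 hg0 hg1 le_rfl hPR.nD hC.D1).2 v' hv0'.le
    hv1).2.1
  have h6 : C * (W g - v') ≤ C * ((g - g') / C) :=
    mul_le_mul_of_nonneg_left (by linarith only [ht, hvt]) hC0.le
  rw [mul_div_cancel₀ _ hC0.ne'] at h6
  linarith only [h1, he, h3, h5, h6]

end Pool.S6C
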