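import Pool.Agent.H5.S6.Lemc
import Pool.Agent.H36.S6.Epf
import Pool.Agent.H36.S6.Act
import Pool.Agent.H48.S6.Lcz
import Pool.Agent.H7.S6C.Trv

/-!
# LEMMA C from the U-step
-/

set_option autoImplicit false

namespace Pool.S6C

/-- **LEMMA C**, from the U-step. -/
theorem lemc_ust (h : USTStmt) : LEMCStmt := lemc_of act_stmt h epf_thm lcz_thm triv_thm

/-- **LEMMA C**, from the U-step with side labels. -/
theorem lemc_uv (h : UVStmt) : LEMCStmt := lemc_ust (ust_of_uv h)

end Pool.S6C
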