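import Pool.Agent.H5.S6.Lc
import Pool.Agent.H77.S6.FQ9

/-!
# Planks for smaller windows, without a frame
-/

set_option autoImplicit false

namespace Pool.S6C

open Finset Real
open Pool.Agent.H49.Ent Pool.Agent.H32.Dense Pool.STK Pool.KA Pool.KSAT Pool.K2S Pool.PB Pool.KS6

/-- Numbers. -/
theorem lz_num {g p p₁ v v' l h c J N s L2 G V y pp q1 H RW P : ℝ} (hL : 0 ≤ L2)
    (hL1 : L2 ≤ 1) (hc0 : 0 ≤ c) (hc3 : c ≤ 3) (hN : 0 < N) (hJ : 0 ≤ J) (h0 : G ≤ g * J)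
    (h1 : g * J - 1 ≤ G) (h2 : v * J - N ≤ V)
    (h4 : p * J - 2 * (J / N) - N ≤ pp) (h5 : y ≤ 3 * (v - v') * J)
    (h6 : q1 ≤ p₁ * J) (hP : p₁ - 2 / N ≤ P)
    (hs : s = (c * (g - p₁) - 9 * (g - p) - 3 * l - 3 * h - 3 * (v - v')) * L2)
    (hs4 : 20 * (J / N) ≤ s / 4 * J) (j4 : 9 * N + 3 ≤ s / 2 * J)
    (hH : (2 * p - 2 * v - l - h) * J * L2 ≤ H)
    (hR : RW ≤ ((3 - c) * (g - P) * L2 + s / 8) * J) :
    3 * (2 * (G - V) * L2 - H) + (y + 3 * (G - pp)) * L2 + RW ≤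
      3 * (G - q1) * L2 - s / 8 * J := by
  have hJN : 0 ≤ J / N := by positivity
  have a1 : 2 * (G - V) * L2 ≤ ((2 * g - 2 * v) * J + 2 * N) * L2 :=
    mul_le_mul_of_nonneg_right (by linarith only [h0, h2]) hL
  have a2 : (y + 3 * (G - pp)) * L2 ≤
      ((3 * (v - v') + 3 * (g - p)) * J + 6 * (J / N) + 3 * N) * L2 :=
    mul_le_mul_of_nonneg_right (by linarith only [h0, h4, h5]) hL
  have a3 : (3 * (g - p₁) * J - 3) * L2 ≤ 3 * (G - q1) * L2 :=
    mul_le_mul_of_nonneg_right (by linarith only [h1, h6]) hL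
  have a4 : (3 - c) * (g - P) * (L2 * J) ≤ (3 - c) * (g - (p₁ - 2 / N)) * (L2 * J) :=
    mul_le_mul_of_nonneg_right (mul_le_mul_of_nonneg_left (by linarith only [hP]) (by linarith only [hc3]))
      (by positivity)
  have a5 : (3 - c) * (2 * ((J / N) * L2)) ≤ 3 * (2 * ((J / N) * L2)) :=
    mul_le_mul_of_nonneg_right (by linarith only [hc0]) (by positivity)
  have a6 : (3 - c) * (g - (p₁ - 2 / N)) * (L2 * J) = (3 - c) * (g - p₁) * (L2 * J) +
      (3 - c) * (2 * ((J / N) * L2)) := by ring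
  have a7 : (12 * (J / N) + 9 * N + 3) * L2 ≤ (12 * (J / N) + 9 * N + 3) * 1 :=
    mul_le_mul_of_nonneg_left hL1 (by positivity)
  have a8 : s * J = (c * (g - p₁) - 9 * (g - p) - 3 * l - 3 * h - 3 * (v - v')) * L2 * J := by
    rw [hs]
  linarith only [hN, hs4, j4, hH, hR, a1, a2, a3, a4, a5, a6, a7, a8]

/-- **Planks for smaller windows**, without a frame. -/
theorem lz_prd (hZ : LCZStmt) {S : PCl 3} {a R h₁ : ℝ} {i₀ : Fin 3} {c s₂ : ℝ} {r : ℝ → ℝ}
    {D : Set ℝ} {σ : ℝ → Row} (hC : Cs S a R h₁ i₀ c s₂ r D σ) {g p p₁ l h : ℝ} {v v' : ℚ}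
    (hg0 : 0 < g) (hg1 : g ≤ 1) (hgD : g ∉ D) (hpl : Plr r c g)
    (hv'0 : 0 ≤ v') (hvv : v' ≤ v) (hpg : p ≤ g) (hvl : (v : ℝ) < p₁)
    (hpp : p₁ + ((v : ℝ) - v') < p)
    (hnum : 9 * (g - p) + 3 * l + 3 * h + 3 * ((v : ℝ) - v') < c * (g - p₁))
    (hnat : Clp S (qNat i₀ g v l p h)) : p₁ - ((v : ℝ) - v') ≤ (σ g).th v' := by
  classical
  have hrg := hC.row g hg0 hg1 hgD
  have hlog : 0 < Real.log 2 := Real.log_pos (by norm_num)
  have hlog1 : Real.log 2 ≤ 1 := by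
    have := Real.log_two_lt_d9
    linarith only [hlog, this]
  have hv'0' : (0 : ℝ) ≤ v' := by exact_mod_cast hv'0
  have hvv' : (v' : ℝ) ≤ v := by exact_mod_cast hvv
  have hp0 : 0 < p := by linarith only [hvl, hpp, hv'0', hvv']
  have hp₁0 : 0 < p₁ := by linarith
  have hv1 : (v : ℝ) ≤ 1 := by linarith
  have hc2 : c ≤ 3 / 2 := by
    have h1 := hC.tail 0 le_rfl zero_le_one
    have h2 := hC.mono 0 1 le_rfl zero_le_one le_rfl
    linarith
  refine le_of_forall_pos_le_add fun x hx => ?_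
  have goal : p₁ - ((v : ℝ) - v') - x ≤ (σ g).th v' := by
    refine th_of_lab hC.ne hC.st hg1 hrg hv'0 (by linarith) (by linarith) ?_
    obtain ⟨s₀, hs₀⟩ : ∃ s₀, s₀ = (c * (g - p₁) - 9 * (g - p) - 3 * l - 3 * h -
      3 * ((v : ℝ) - v')) * Real.log 2 := ⟨_, rfl⟩
    have hs0 : 0 < s₀ := by rw [hs₀]; exact mul_pos (by linarith only [hnum]) hlog
    obtain ⟨N, V, V', hN, hKN, hV, hV'⟩ := mesh_two (hv'0.trans hvv) hv'0
      (80 / s₀ + 12 / x + 2 / (p - p₁ - (v - v')) + 2 / (p₁ - v))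
    have hN' : (0 : ℝ) < N := by exact_mod_cast hN
    have t0 : 0 < p - p₁ - ((v : ℝ) - v') := by linarith only [hpp]
    have q1 : 0 < 80 / s₀ := by positivity
    have q3 : 0 < 12 / x := by positivity
    have q5 : 0 < 2 / (p - p₁ - ((v : ℝ) - v')) := div_pos (by norm_num) t0
    have q6 : 0 < 2 / (p₁ - (v : ℝ)) := div_pos (by norm_num) (by linarith only [hvl])
    have n1 : 80 ≤ N * s₀ := by
      have : 80 / s₀ ≤ N := by linarith only [hKN, q3, q5, q6]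
      rwa [div_le_iff₀ hs0] at this
    have n3 : 12 ≤ N * x := by
      have : 12 / x ≤ N := by linarith only [hKN, q1, q5, q6]
      rwa [div_le_iff₀ hx] at this
    have n6 : 2 ≤ N * (p - p₁ - ((v : ℝ) - v')) := by
      have : 2 / (p - p₁ - ((v : ℝ) - v')) ≤ N := by linarith only [hKN, q1, q3, q6]
      rwa [div_le_iff₀ t0] at this
    have n7 : 2 ≤ N * (p₁ - v) := by
      have : 2 / (p₁ - (v : ℝ)) ≤ N := by linarith only [hKN, q1, q3, q5]
      rwa [div_le_iff₀ (by linarith only [hvl])] at this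
    have n8 : 0 ≤ (N : ℝ) * (v - v') := mul_nonneg hN'.le (by linarith only [hvv'])
    have n9 : (N : ℝ) * p ≤ N * 1 := mul_le_mul_of_nonneg_left (by linarith only [hg1, hpg]) hN'.le
    have n10 : 0 ≤ (N : ℝ) * v := mul_nonneg hN'.le (by linarith only [hv'0', hvv'])
    obtain ⟨pp, hpp1, hpp2⟩ := nat_near (s := p * N - 1) (by linarith only [hV, n6, n7, n8])
    obtain ⟨Pn, hPn1, hPn2⟩ := nat_near (s := p₁ * N) (by positivity)
    have hVV : V' ≤ V := by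
      have : (V' : ℝ) ≤ V := by
        rw [hV, hV']
        exact mul_le_mul_of_nonneg_right hvv' hN'.le
      exact_mod_cast this
    obtain ⟨y, hy⟩ : ∃ y, y = V - V' := ⟨_, rfl⟩
    have hyr : (y : ℝ) = ((v : ℝ) - v') * N := by
      rw [hy, Nat.cast_sub hVV, hV, hV']
      ring
    have hVy : V - y = V' := by omega
    have hVL : V < Pn := by
      have : (V : ℝ) < Pn := by linarith only [hg1, hpg, hvl, hpp, hv'0', hvv', hV, n7, hPn1]
      exact_mod_cast this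
    have hPy : Pn + y ≤ pp := by
      have : ((Pn + y : ℕ) : ℝ) ≤ pp := by push_cast; linarith only [n6, hpp1, hPn2, hyr]
      exact_mod_cast this
    have hppN : pp ≤ N := by
      have : (pp : ℝ) ≤ N := by linarith only [hg1, hpg, hvl, hpp, hv'0', hvv', n9, hpp2]
      exact_mod_cast this
    have hQ : ∀ J : ℕ, pp * (J / N) ≤ ⌊g * J⌋₊ ∧ ⌊g * J⌋₊ ≤ J := by
      intro J
      refine ⟨Nat.le_floor ?_, floor_row_one hg1 J⟩
      refine mesh_le hN ?_
      have : (N : ℝ) * p ≤ N * g := mul_le_mul_of_nonneg_left hpg hN'.le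
      linarith only [hg1, hpg, hvl, hpp, hv'0', hvv', hpp2, this]
    -- the claims
    have hclaims : Clp S (fun J F A => ∀ q : Fin 3 × Fin 3,
        (∀ j : Fin 3, j = i₀ ∨ j = q.1 ∨ j = q.2) → ∀ z : F.Ω → Pln,
        (∀ ω, A ω → Inc i₀ q.1 q.2 (V * (J / N)) 0 (pp * (J / N)) 6 (z ω) (F.t ω)
          (F.x ω) (F.d ω)) → (∀ ω, A ω → (z ω).e = 0) →
        (∃ φ : (Fin 3 → ℤ) × (ℕ × F.ζ) → Pln, ∀ ω, A ω → z ω =
          φ (Pool.KS6.ptq F ⌊g * J⌋₊ ω)) →
        3 * (2 * (((⌊g * J⌋₊ : ℕ) : ℝ) - (V * (J / N) : ℕ)) * Real.log 2 -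
            CH (Pool.Agent.H49.Ent.cond F.p A True) (F.X ⌊g * J⌋₊) (fun ω => (z ω, F.W ω))) +
          (((3 * y * (J / N) : ℕ) : ℝ) + 3 * (((⌊g * J⌋₊ : ℕ) : ℝ) -
            (pp * (J / N) : ℕ))) * Real.log 2 +
          CH (Pool.Agent.H49.Ent.cond F.p A True) (F.X ⌊g * J⌋₊)
            (fun ω => (F.X (Pn * (J / N)) ω, F.W ω)) ≤
          3 * (((⌊g * J⌋₊ : ℕ) : ℝ) - (Pn * (J / N) : ℕ)) * Real.log 2 - s₀ / 8 * J →
        LABq F ⌊g * J⌋₊ i₀ q.1 q.2 ((V - y) * (J / N)) 0 ((Pn - y - 1) * (J / N)) 2 A) := by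
      refine Clp.finite fun q => Clp.cnd fun hq => ?_
      exact clp_of_clm hC.st (Claim.clm (hZ a R hC.a1.le hC.R0 hC.ub (s₀ / 8)
        6 (by positivity) (by norm_num) N i₀ q.1 q.2 hq V y pp Pn (by omega) hVL
        hPy hppN (fun J => ⌊g * J⌋₊) hQ))
    obtain ⟨P, hP⟩ : ∃ P : ℝ, P = ((Pn : ℝ) - 1) / N := ⟨_, rfl⟩
    have hP0 : 0 ≤ P := by
      rw [hP]
      exact div_nonneg (by linarith only [hV, n7, hPn1]) hN'.le
    have hPg : P ≤ g := by
      rw [hP, div_le_iff₀ hN']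
      have : p₁ * N ≤ g * N := mul_le_mul_of_nonneg_right (by linarith only [hpg, hpp, hvv']) hN'.le
      linarith only [hg1, hpg, hvl, hpp, hv'0', hvv', hPn2, this]
    have hP2 : p₁ - 2 / N ≤ P := by
      rw [hP, le_div_iff₀ hN', sub_mul, div_mul_cancel₀ _ hN'.ne']
      linarith only [hPn1]
    have hrows := plsC_of hC hg1 hpl P hP0 hPg (s₀ / 8) (by positivity)
    obtain ⟨J₁, hJ₁⟩ := exists_nat_gt ((N : ℝ) * (N + 5) + (9 * N + 3) / (s₀ / 2) +
      2 * N / x + 1)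
    have c5 : Clp S (fun J F A => 0 < Pe F.p A) :=
      Clp.base 1 one_pos 0 fun J _ F A hA => lt_of_lt_of_le (Real.exp_pos _)
        (hC.st _ _ _ _ hA).2.2.2
    refine Clp.mono (J₂ := J₁) (hclaims.and ((hnat.and c5).and hrows)) ?_
    rintro J hJ F A ⟨d1, ⟨⟨iu, iN, hi, z, hI, ⟨φ, hφ⟩, hfull⟩, hA⟩, d5⟩
    have hJr : (N : ℝ) * (N + 5) + (9 * N + 3) / (s₀ / 2) + 2 * N / x + 1 < J :=
      hJ₁.trans_le (by exact_mod_cast hJ)
    have j0 : 0 ≤ (N : ℝ) * (N + 5) := by positivity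
    have j1 : 0 < (9 * N + 3) / (s₀ / 2) := by positivity
    have j2 : 0 < 2 * N / x := by positivity
    have j3 : (N : ℝ) * (N + 5) ≤ J := by linarith only [hg1, hpg, hvl, hpp, hv'0', hvv', hJr, j1, j2]
    have j3' : (N : ℝ) * (N + 1) ≤ J := by linarith only [hg1, hpg, hvl, hpp, hv'0', hvv', hJr, j1, j2]
    have j4 : 9 * N + 3 ≤ s₀ / 2 * J := by
      have : (9 * N + 3) / (s₀ / 2) ≤ J := by linarith only [hg1, hpg, hvl, hpp, hv'0', hvv', hJr, j0, j2]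
      rw [div_le_iff₀ (by positivity)] at this
      linarith only [this]
    have j5 : 2 * N ≤ x * J := by
      have : 2 * N / x ≤ J := by linarith only [hg1, hpg, hvl, hpp, hv'0', hvv', hJr, j0, j1]
      rw [div_le_iff₀ hx] at this
      linarith only [this]
    have hJ0 : (0 : ℝ) ≤ J := Nat.cast_nonneg J
    have k5 : (N : ℝ) + 5 ≤ J / N := by
      rw [le_div_iff₀ hN']
      linarith only [hg1, hpg, hvl, hpp, hv'0', hvv', hJr, j1, j2]
    have hs4 : 20 * ((J : ℝ) / N) ≤ s₀ / 4 * J := by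
      rw [mul_div_assoc', div_le_iff₀ hN']
      have := mul_le_mul_of_nonneg_right n1 hJ0
      linarith only [this]
    have hx3 : 6 * ((J : ℝ) / N) ≤ x / 2 * J := by
      rw [mul_div_assoc', div_le_iff₀ hN']
      have := mul_le_mul_of_nonneg_right n3 hJ0
      linarith only [this]
    -- the numbers
    obtain ⟨u, hu⟩ : ∃ u, u = J / N := ⟨_, rfl⟩
    have m5 := mesh_ge (J := J) (k := V) (s := v) (b := 0) hN hv1 (by linarith only [hv'0', hvv']) le_rfl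
      (by rw [hV]; linarith only)
    have m7 := mesh_ge (J := J) (k := pp) (s := p) (b := 2) hN (by linarith only [hg1, hpg]) (by linarith only [hvl, hpp, hv'0', hvv'])
      (by norm_num) (by linarith only [hpp1])
    have m8 : ((3 * y * (J / N) : ℕ) : ℝ) ≤ 3 * ((v : ℝ) - v') * J :=
      mesh_le hN (by
        push_cast
        linarith only [hyr])
    have m10 := mesh_le (J := J) (k := V') (s := v') hN hV'.le
    have m12 := mesh_le (J := J) (k := Pn) (s := p₁) hN hPn2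
    have m13 := mesh_ge (J := J) (k := Pn) (s := (Pn : ℝ) / N) (b := 0) hN (by
      rw [div_le_one hN']
      linarith only [hg1, hpg, hvl, hpp, hv'0', hvv', n6, n8, n9, hPn2]) (by positivity) le_rfl (by
      rw [div_mul_cancel₀ _ hN'.ne']
      linarith only)
    rw [← hu] at m5 m7 m8 m10 m12 m13
    obtain ⟨G, hG⟩ : ∃ G, G = ⌊g * J⌋₊ := ⟨_, rfl⟩
    have f6 : (G : ℝ) ≤ g * J := by rw [hG]; exact Nat.floor_le (by positivity)
    have f7 : g * J - 1 ≤ G := by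
      rw [hG]
      have := Nat.lt_floor_add_one (g * (J : ℝ))
      linarith only [this]
    have hpG : ⌊p * J⌋₊ ≤ G := by rw [hG]; exact floor_row hpg J
    have hVJ : V' * u ≤ ⌊(v' : ℝ) * J⌋₊ := Nat.le_floor m10
    -- the label on the mesh
    obtain ⟨z₀, hz₀⟩ : ∃ z₀ : F.Ω → Pln, z₀ =
      fun ω => ⟨0, (z ω).c, (z ω).s, (z ω).xb, (z ω).db⟩ := ⟨_, rfl⟩
    have hIm : ∀ ω, A ω → Inc i₀ iu iN (V * u) 0 (pp * u) 6 (z₀ ω) (F.t ω) (F.x ω)
        (F.d ω) := fun ω hω => by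
      have h1 := (hI ω hω).e0 (by norm_num)
      have h2 : (3 : ℝ) * 2 = 6 := by norm_num
      rw [h2] at h1
      have h3 : ⌊(0 : ℝ) * (J : ℝ)⌋₊ = 0 := by simp
      rw [← h3] at h1
      have h4 := mesh_inc (L := 0) (pp := pp) hN hV (by linarith only [hv'0', hvv']) hv1 (by simp) hpp2 j3'
        (by norm_num) h1
      rw [Nat.zero_mul, ← hu] at h4
      rw [hz₀]
      exact h4
    have hent := nat_mono F hA hpG z z₀ (fun ω ω' _ _ h1 _ => by rw [hz₀]; simp only; rw [h1])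
    have hPP : ⌊P * J⌋₊ ≤ Pn * u := by
      have h1 : (⌊P * J⌋₊ : ℝ) ≤ P * J := Nat.floor_le (by positivity)
      have h2 : P * J = (Pn : ℝ) / N * J - J / N := by rw [hP]; ring
      have h3 : (⌊P * J⌋₊ : ℝ) ≤ ((Pn * u : ℕ) : ℝ) := by
        refine h1.trans (le_trans ?_ m13)
        rw [h2]
        linarith only [hg1, hpg, hvl, hpp, hv'0', hvv', k5]
      exact_mod_cast h3
    have hrw := rows_mono F hA (G := G) hPP
    rw [← hG] at d5
    have m5' : (v : ℝ) * J - N ≤ ((V * u : ℕ) : ℝ) := by linarith only [m5]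
    have hnumJ := lz_num hlog.le hlog1 hC.c0.le (by linarith only [hg1, hpg, hvl, hpp, hv'0', hvv', hc2]) hN' hJ0 f6 f7
      m5' m7 m8 m12 hP2 hs₀ hs4 j4 (hfull.trans hent) (hrw.trans d5)
    have hlab := d1 (iu, iN) hi z₀ (by rw [← hu]; exact hIm) (fun ω _ => by rw [hz₀])
      ⟨fun q => ⟨0, (φ q).c, (φ q).s, (φ q).xb, (φ q).db⟩, fun ω hω => by
        rw [hz₀]; simp only; rw [hφ ω hω]⟩ (by rw [← hG, ← hu]; exact hnumJ)
    rw [← hu] at hlab
    refine ⟨iu, iN, hi, (V - y) * u, 0, (Pn - y - 1) * u, hlab, ?_, ?_⟩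
    · rw [hVy]
      exact hVJ
    · rw [hVy]
      by_cases hneg : p₁ - ((v : ℝ) - v') - x ≤ 0
      · have : ⌊(p₁ - ((v : ℝ) - v') - x) * J⌋₊ = 0 :=
          Nat.floor_of_nonpos (mul_nonpos_of_nonpos_of_nonneg hneg hJ0)
        rw [this]
        omega
      push Not at hneg
      have hsz : y + 1 ≤ Pn := by
        have h1 : 0 < (p₁ - ((v : ℝ) - v') - x) * N := mul_pos hneg hN'
        have : ((y + 1 : ℕ) : ℝ) ≤ Pn := by
          push_cast
          linarith only [hg1, hpg, hpp, hvv', hx, n3, hPn1, hyr, hneg, h1]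
        exact_mod_cast this
      have hsub : Pn - y - 1 = Pn - (y + 1) := by omega
      have m14 := mesh_ge (J := J) (k := Pn - y - 1) (s := p₁ - ((v : ℝ) - v'))
        (b := 2) hN (by linarith only [hg1, hpg, hpp, hvv']) (by linarith only [hx, hneg]) (by norm_num) (by
          rw [hsub, Nat.cast_sub hsz]
          push_cast
          linarith only [hPn1, hyr])
      rw [← hu] at m14
      have h1 : (⌊(p₁ - ((v : ℝ) - v') - x) * J⌋₊ : ℝ) ≤
          (p₁ - ((v : ℝ) - v') - x) * J := Nat.floor_le (mul_nonneg hneg.le hJ0)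
      have h2 : ⌊(p₁ - ((v : ℝ) - v') - x) * J⌋₊ ≤ (Pn - y - 1) * u := by
        have h3 : (⌊(p₁ - ((v : ℝ) - v') - x) * J⌋₊ : ℝ) ≤
            (((Pn - y - 1) * u : ℕ) : ℝ) := by
          refine h1.trans (le_trans ?_ m14)
          linarith only [hg1, hpg, hpp, hvv', hx, hV, n6, n7, n8, n9, k5, hx3, hneg]
        exact_mod_cast h3
      omega
  linarith only [goal]

end Pool.S6C
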