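import Pool.Agent.H80.S6C.Cls

/-!
# Lemma C at the class level: statements of the inputs

`PU1Stmt`: the fullness of the positions in the natural planks (U-step); `EPFStmt`: the rows of the
coordinate of the fans are full given any visible and conserved label; `LCZStmt`: Lemma C for planks
of equal precision in the two coordinates of the plane (no frame).
-/

set_option autoImplicit false

namespace Pool.S6C

open Finset Real
open Pool.Agent.H49.Ent Pool.Agent.H32.Dense Pool.STK Pool.KA Pool.KSAT Pool.K2S Pool.PB Pool.KS6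

/-- **(EPF)** The rows of the coordinate of the fans are full, given a label which is visible from
exact points and conserved on the windows `v`. -/
def EPFStmt : Prop :=
  ∀ (S : PCl 3) (a R h₁ : ℝ) (i₀ : Fin 3) (c s₂ : ℝ) (r : ℝ → ℝ) (D : Set ℝ) (σ : ℝ → Row),
    Cs S a R h₁ i₀ c s₂ r D σ → ∀ p : ℝ, 0 < p → p ≤ 1 → ∀ v : ℚ, 0 ≤ v → (v : ℝ) ≤ p →
    ∀ h : ℝ, 0 < h → Clp S (fun J F A => ∀ (Y : Type) (z : F.Ω → Y),
      (∃ φ : (Fin 3 → ℤ) × (ℕ × F.ζ) → Y, ∀ ω, A ω → z ω = φ (Fam.pt F ω)) →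
      (∃ ψ : ((Fin 3 → ℝ) × (Fin 3 → ℝ)) × F.ζ × ℕ → Y, ∀ ω, A ω →
        z ω = ψ (slam F ⌊(v : ℝ) * J⌋₊ ω)) →
      (p - v - h) * J * Real.log 2 ≤
        CH (Pool.Agent.H49.Ent.cond F.p A True) (F.X ⌊p * J⌋₊) (fun ω => (z ω, F.W ω)))

/-- **(LCZ)** Lemma C for planks of equal precision in the two coordinates of the plane. Scales are
multiples of `u = J / N`. -/
def LCZStmt : Prop :=
  ∀ a R : ℝ, 1 ≤ a → 0 < R → UBa 3 a R → ∀ η C : ℝ, 0 < η → 1 ≤ C →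
    ∀ (N : ℕ) (i0 iu iN : Fin 3), (∀ j : Fin 3, j = i0 ∨ j = iu ∨ j = iN) →
    ∀ w y p p1 : ℕ, y ≤ w → w < p1 → p1 + y ≤ p → p ≤ N →
    ∀ Q : ℕ → ℕ, (∀ J, p * (J / N) ≤ Q J ∧ Q J ≤ J) →
    Claim (m := 3) a R (fun J F A => ∀ z : F.Ω → Pln,
      (∀ ω, A ω → Inc i0 iu iN (w * (J / N)) 0 (p * (J / N)) C (z ω) (F.t ω)
        (F.x ω) (F.d ω)) → (∀ ω, A ω → (z ω).e = 0) →
      (∃ φ : (Fin 3 → ℤ) × (ℕ × F.ζ) → Pln, ∀ ω, A ω → z ω = φ (ptq F (Q J) ω)) →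
      3 * (2 * (((Q J : ℕ) : ℝ) - (w * (J / N) : ℕ)) * Real.log 2 -
          CH (Pool.Agent.H49.Ent.cond F.p A True) (F.X (Q J)) (fun ω => (z ω, F.W ω))) +
        (((3 * y * (J / N) : ℕ) : ℝ) + 3 * (((Q J : ℕ) : ℝ) - (p * (J / N) : ℕ))) * Real.log 2 +
        CH (Pool.Agent.H49.Ent.cond F.p A True) (F.X (Q J))
          (fun ω => (F.X (p1 * (J / N)) ω, F.W ω)) ≤
        3 * (((Q J : ℕ) : ℝ) - (p1 * (J / N) : ℕ)) * Real.log 2 - η * J →
      LABq F (Q J) i0 iu iN ((w - y) * (J / N)) 0 ((p1 - y - 1) * (J / N)) 2 A)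

end Pool.S6C
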