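import Pool.Agent.H5.S6.Row
import Pool.Agent.H5.S6.Stm
import Pool.Agent.H77.S6C.Ust

/-!
# Natural labels at the row `Q`

A plank label which is visible at the row `Q`, with the direction to precision `l`, such that the
position is full in the plank.
-/

set_option autoImplicit false

namespace Pool.S6C

open Finset Real
open Pool.Agent.H49.Ent Pool.Agent.H32.Dense Pool.STK Pool.KA Pool.KSAT Pool.K2S Pool.PB Pool.KS6

/-- Full plank labels at the row `Q`. -/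
def qNat (i₀ : Fin 3) (Q v l p h : ℝ) : Stat 3 := fun J F A =>
  ∃ iu iN : Fin 3, (∀ j : Fin 3, j = i₀ ∨ j = iu ∨ j = iN) ∧ ∃ z : F.Ω → Pln,
    (∀ ω, A ω → Inc i₀ iu iN ⌊v * J⌋₊ ⌊l * J⌋₊ ⌊p * J⌋₊ 2 (z ω) (F.t ω) (F.x ω) (F.d ω)) ∧
    (∃ φ : (Fin 3 → ℤ) × (ℕ × F.ζ) → Pln, ∀ ω, A ω → z ω = φ (Pool.KS6.ptq F ⌊Q * J⌋₊ ω)) ∧
    (2 * p - 2 * v - l - h) * J * Real.log 2 ≤
      CH (Pool.Agent.H49.Ent.cond F.p A True) (F.X ⌊p * J⌋₊) (fun ω => (z ω, F.W ω))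

/-- Labels at the row `Q` are functions of the exact point. -/
theorem vis_pt {J : ℕ} (F : Fam 3 J) {q : ℕ} (hq : q ≤ J) {Y : Type} {z : F.Ω → Y}
    {A : F.Ω → Prop} (h : ∃ φ : (Fin 3 → ℤ) × (ℕ × F.ζ) → Y, ∀ ω, A ω → z ω =
      φ (Pool.KS6.ptq F q ω)) :
    ∃ φ : (Fin 3 → ℤ) × (ℕ × F.ζ) → Y, ∀ ω, A ω → z ω = φ (Fam.pt F ω) := by
  obtain ⟨φ, hφ⟩ := h
  obtain ⟨χ, hχ⟩ := ptr_coarse F hq
  refine ⟨fun s => φ (χ s), fun ω hω => ?_⟩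
  rw [hφ ω hω]
  congr 1
  exact hχ ω

/-- **Natural labels.** -/
theorem natq (hU : USTStmt) (hE : EPFStmt) {S : PCl 3} {a R h₁ : ℝ} {i₀ : Fin 3} {c s₂ : ℝ}
    {r : ℝ → ℝ} {D : Set ℝ} {σ : ℝ → Row} (hC : Cs S a R h₁ i₀ c s₂ r D σ) {act : ℚ → ℝ}
    {κ : ℝ} (hAD : ActD S i₀ act κ) {g p h : ℝ} (hg0 : 0 < g) (hg1 : g ≤ 1) (hgD : g ∉ D) {u₁ u₂ : ℚ} (hu1 : 0 < u₁) (hu : u₁ < u₂)
    (hug : (u₂ : ℝ) ≤ g) (hrot1 : (σ 1).rot u₂ < (σ 1).pi) (hrotg : (σ g).rot u₂ < (σ g).pi)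
    (hp0 : 0 < p) (hp1 : p < 1) (hpg : p ≤ g) (hth : p < (σ g).th u₁) (hh : 0 < h)
    (hup : (u₂ : ℝ) < p) :
    ∃ (v : ℚ) (l : ℝ), u₁ < v ∧ v < u₂ ∧ (v : ℝ) + l ≤ p ∧ l < (σ g).rot v ∧
      Clp S (qNat i₀ g v l p h) := by
  have hr1 := hC.row 1 one_pos le_rfl hC.D1
  have hrg := hC.row g hg0 hg1 hgD
  have hu2 : u₂ ≤ 1 := by
    have : (u₂ : ℝ) ≤ 1 := hug.trans hg1
    exact_mod_cast this
  have hlog : 0 < Real.log 2 := Real.log_pos (by norm_num)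
  -- the directions at the row `g`
  have hrr : ∀ v : ℚ, 0 ≤ v → v ≤ u₂ → (σ g).rot v = (σ 1).rot v := by
    intro v hv0 hv
    obtain ⟨k1, k2, k3⟩ := (rq_thm S a R h₁ i₀ c s₂ r D σ hC g 1 hg0 hg1 le_rfl hgD hC.D1).2 v hv0
      (hv.trans hu2)
    have k4 := rot_window hC.ne hrg hv0 hv hu2
    rcases le_total ((σ 1).rot v) (σ g).pi with h | h
    · rw [min_eq_left h] at k3
      exact le_antisymm k1 k3
    · rw [min_eq_right h] at k3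
      linarith
  -- the label
  have key : ∀ (v : ℚ) (l : ℝ), u₁ < v → v < u₂ → (v : ℝ) + l ≤ p → l < (σ g).rot v →
      Clp S (fun J F A => ∀ iu iN : Fin 3, (∀ j : Fin 3, j = i₀ ∨ j = iu ∨ j = iN) →
        ∀ z : F.Ω → Pln,
        (∀ ω, A ω → Inc i₀ iu iN ⌊(v : ℝ) * J⌋₊ ⌊l * J⌋₊ ⌊p * J⌋₊ 2 (z ω)
          (F.t ω) (F.x ω) (F.d ω)) →
        (∃ φ : (Fin 3 → ℤ) × (ℕ × F.ζ) → Pln, ∀ ω, A ω → z ω = φ (Fam.pt F ω)) →
        (∃ ψ : ((Fin 3 → ℝ) × (Fin 3 → ℝ)) × F.ζ × ℕ → Pln, ∀ ω, A ω →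
          z ω = ψ (slam F ⌊(v : ℝ) * J⌋₊ ω)) →
        (2 * p - 2 * v - l - h) * J * Real.log 2 ≤
          CH (Pool.Agent.H49.Ent.cond F.p A True) (F.X ⌊p * J⌋₊) (fun ω => (z ω, F.W ω))) →
      Clp S (qNat i₀ g v l p h) := by
    intro v l h1 h2 h3 h4 h5
    have hv0 : 0 ≤ v := (hu1.trans h1).le
    have hv1 : v ≤ 1 := h2.le.trans hu2
    have hthv := th_mono hC.ne hC.st hg1 hrg u₁ v hu1.le h1.le (by
      have : (v : ℝ) ≤ u₂ := by exact_mod_cast h2.le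
      linarith)
    have c1 := glu hC hg1 hrg v hv0 hv1 h4 (hth.trans_le hthv) h3 hp0 hpg
    refine Clp.mono (J₂ := 0) (c1.and h5) ?_
    rintro J - F A ⟨⟨iu, iN, hi, z, hI, hφ, hψ⟩, d5⟩
    exact ⟨iu, iN, hi, z, hI, hφ, d5 iu iN hi z hI (vis_pt F (floor_row_one hg1 J) hφ) hψ⟩
  by_cases hcase : ∃ w : ℚ, u₁ < w ∧ w < u₂ ∧ (w : ℝ) + (σ 1).rot w < p
  · obtain ⟨w, hw1, hw2, hw3⟩ := hcase
    have hth1 : p < (σ 1).th u₁ := hth.trans_le ((rq_thm S a R h₁ i₀ c s₂ r D σ hC g 1 hg0 hg1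
      le_rfl hgD hC.D1).2 u₁ hu1.le (hu.le.trans hu2)).2.1
    have hrw := rot_window hC.ne hr1 (hu1.trans hw1).le hw2.le hu2
    have hwr : (w : ℝ) < 1 := by
      have : (w : ℝ) < u₂ := by exact_mod_cast hw2
      linarith
    obtain ⟨v, k, hv1, hv2, hk0, hk1, hv3⟩ := hU S a R h₁ i₀ c s₂ r D σ hC act κ hAD p hp0 hp1
      u₁ w hu1 hw1 hwr hw3 (lt_of_le_of_lt hrw hrot1) hth1 (h / 2) (by linarith)
    have hvw : (v : ℝ) ≤ w := by exact_mod_cast hv2.le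
    have hrv := rot_window hC.ne hr1 (hu1.trans hv1).le hv2.le (hw2.le.trans hu2)
    have hrg' := hrr v (hu1.trans hv1).le (hv2.trans hw2).le
    refine ⟨v, (σ 1).rot v - k, hv1, hv2.trans hw2, by linarith, by rw [hrg']; linarith,
      key v _ hv1 (hv2.trans hw2) (by linarith) (by rw [hrg']; linarith) ?_⟩
    refine Clp.mono (J₂ := 0) hv3 ?_
    intro J _ F A d iu iN hi z hI hφ hψ
    refine le_trans ?_ (d iu iN hi z hI hφ hψ)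
    refine mul_le_mul_of_nonneg_right (mul_le_mul_of_nonneg_right ?_ (Nat.cast_nonneg J)) hlog.le
    linarith
  · push Not at hcase
    obtain ⟨v, hv1, hv2⟩ := exists_between hu
    have hvp : (v : ℝ) ≤ p := by
      have : (v : ℝ) ≤ u₂ := by exact_mod_cast hv2.le
      linarith
    have hrg' := hrr v (hu1.trans hv1).le hv2.le
    have hw := hcase v hv1 hv2
    have hE' := hE S a R h₁ i₀ c s₂ r D σ hC p hp0 hp1.le v (hu1.trans hv1).le hvp (h / 2)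
      (by linarith)
    refine ⟨v, p - v - h / 2, hv1, hv2, by linarith, by rw [hrg']; linarith,
      key v _ hv1 hv2 (by linarith) (by rw [hrg']; linarith) ?_⟩
    refine Clp.mono (J₂ := 0) hE' ?_
    intro J _ F A d iu iN hi z hI hφ hψ
    refine le_trans ?_ (d Pln z hφ hψ)
    refine mul_le_mul_of_nonneg_right (mul_le_mul_of_nonneg_right ?_ (Nat.cast_nonneg J)) hlog.le
    linarith

end Pool.S6C
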