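import Pool.Agent.H75.S6C.Ths
import Pool.Agent.H75.S6C.Glu
import Pool.Agent.H77.S6.LC7
import Pool.Agent.H5.K3.LabQ

/-!
# Frames at the row `Q`, coarse boxes

The fans at the points at precision `Q` lie near lines with slopes at most one, to a fixed
proportion of the resolution, if the number `pi` of the row is positive.
-/

set_option autoImplicit false

namespace Pool.S6C

open Finset Real
open Pool.Agent.H49.Ent Pool.Agent.H32.Dense Pool.STK Pool.KA Pool.KSAT Pool.K2S Pool.PB Pool.KS6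

/-- Cut off at one. -/
noncomputable def cl1 (r : ℝ) : ℝ := max (-1) (min 1 r)

theorem cl1_le (r : ℝ) : |cl1 r| ≤ 1 := by
  unfold cl1
  rw [abs_le]
  exact ⟨le_max_left _ _, max_le (by norm_num) (min_le_left _ _)⟩

theorem cl1_near {r e : ℝ} (he : |e| ≤ 1) : |cl1 r - r| ≤ |r - e| := by
  unfold cl1
  rw [abs_le] at he
  rcases le_total r 1 with h | h
  · rw [min_eq_right h]
    rcases le_total (-1) r with h' | h'
    · rw [max_eq_right h', sub_self, abs_zero]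
      exact abs_nonneg _
    · rw [max_eq_left h', abs_of_nonneg (by linarith only [h']), abs_of_nonpos (by linarith only [he, h'])]
      linarith only [he]
  · rw [min_eq_left h, max_eq_right (by norm_num), abs_of_nonpos (by linarith),
      abs_of_nonneg (by linarith only [he, h])]
    linarith only [he]

/-- **Frames at the row `Q`.** -/
theorem line_row {S : PCl 3} {a R h₁ : ℝ} {i₀ : Fin 3} {c s₂ : ℝ} {r : ℝ → ℝ} {D : Set ℝ}
    {σ : ℝ → Row} (hC : Cs S a R h₁ i₀ c s₂ r D σ) {Q : ℝ} (hQ1 : Q ≤ 1)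
    {ρ : Row} (hρ : Rw S i₀ Q ρ) (hpi : 0 < ρ.pi) :
    ∃ h₂ : ℝ, 0 < h₂ ∧ Clp S (fun J F A =>
      LineAt i₀ (1 / 2 ^ ⌊h₂ * J⌋₊) (Pool.KS6.ptq F ⌊Q * J⌋₊) F.d A) := by
  obtain ⟨m, hm⟩ : ∃ m, m = min (ρ.pi / 2) (min h₁ 1) := ⟨_, rfl⟩
  have hm0 : 0 < m := by rw [hm]; exact lt_min (by linarith only [hpi]) (lt_min hC.h₁0 one_pos)
  have hm1 : m ≤ ρ.pi / 2 := by rw [hm]; exact min_le_left _ _
  have hm2 : m ≤ h₁ := by rw [hm]; exact (min_le_right _ _).trans (min_le_left _ _)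
  have hm3 : m ≤ 1 := by rw [hm]; exact (min_le_right _ _).trans (min_le_right _ _)
  obtain ⟨x, hx⟩ : ∃ x, x = m / 8 := ⟨_, rfl⟩
  have hx0 : 0 < x := by rw [hx]; linarith only [hm0]
  refine ⟨x, hx0, ?_⟩
  refine Clp.step ⟨1, fun J F _ => LineAt i₀ (1 / 2 ^ ⌊x * J⌋₊) (Pool.KS6.ptq F ⌊Q * J⌋₊) F.d,
    fun J F _ => LineAt.hered _ _ _ _⟩ fun κ hκ => ?_
  have c2 := hρ.pi.1 (ρ.pi / 2) (by linarith only [hpi])
  obtain ⟨τ, hτ, J₁, hsp⟩ := spread_part hC.a1 hC.R0 hC.ub hC.st hC.lb hx0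
  obtain ⟨J₂, hJ₂⟩ := Pool.S6K.exp_small (κ := κ) (C := 2) hκ (by norm_num)
  obtain ⟨J₃, hJ₃⟩ := exists_nat_gt (8 / x)
  have c3 : Clp S (fun J F A => (∀ q : ℕ, q ≤ J → x * J ≤ q → q + 2 ≤ ⌊h₁ * J⌋₊ →
      ∃ B : F.Ω → Prop, Sub B A ∧ Real.exp (-Real.log 2) * Pe F.p A ≤ Pe F.p B ∧
      ∀ ω, B ω → ∃ ω' ω'', B ω' ∧ B ω'' ∧ Fam.pt F ω' = Fam.pt F ω ∧
        Fam.pt F ω'' = Fam.pt F ω ∧ 1 / 2 ^ (q + 1) ≤ |F.d ω' i₀ - F.d ω'' i₀|) ∧
      Lb F i₀ ⌊h₁ * J⌋₊ A) :=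
    Clp.base τ hτ J₁ fun J hJ F A hA => ⟨hsp J hJ F A hA, hC.lb _ _ _ _ hA⟩
  refine Clp.mono (J₂ := max J₂ J₃) (c2.and c3) ?_
  rintro J hJ F A ⟨d2, d3, e, n, hfr⟩ hSb
  have hJ₂' := hJ₂ J ((le_max_left _ _).trans hJ)
  have hJr : 8 / x < J := hJ₃.trans_le (by exact_mod_cast (le_max_right _ _).trans hJ)
  have hJx : 8 < J * x := by
    rwa [div_lt_iff₀ hx0] at hJr
  have hJ0 : (0 : ℝ) ≤ J := Nat.cast_nonneg J
  have hJm : J * m = 8 * (J * x) := by rw [hx]; ring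
  have hmh : J * m ≤ J * h₁ := mul_le_mul_of_nonneg_left hm2 hJ0
  have hm1' : J * m ≤ J * 1 := mul_le_mul_of_nonneg_left hm3 hJ0
  have hmp : J * m ≤ J * (ρ.pi / 2) := mul_le_mul_of_nonneg_left hm1 hJ0
  obtain ⟨q, hq⟩ : ∃ q, q = ⌈x * J⌉₊ := ⟨_, rfl⟩
  have hq1 : x * J ≤ q := by rw [hq]; exact Nat.le_ceil _
  have hq2 : (q : ℝ) < x * J + 1 := by rw [hq]; exact Nat.ceil_lt_add_one (by positivity)
  have hqJ : q ≤ J := by
    have : (q : ℝ) ≤ J := by linarith only [hm3, hx, hx0, hJx, hJm, hm1', hq2]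
    exact_mod_cast this
  have hqh : q + 2 ≤ ⌊h₁ * J⌋₊ := by
    refine Nat.le_floor ?_
    push_cast
    linarith only [hm3, hx, hx0, hJx, hJm, hmh, hq2]
  obtain ⟨B, hB, hPB, hBs⟩ := d3 q hqJ hq1 hqh
  have hPA : Pe F.p A ≤ 2 * Pe F.p B := by
    rw [Real.exp_neg (Real.log 2), Real.exp_log (by norm_num)] at hPB
    linarith only [hPB]
  refine Pool.S6K.stb_part (C := 2) (hSb 0) hB (by norm_num) hPA hJ₂' (Pe_nonneg F.isLaw A) ?_
  -- the floors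
  obtain ⟨g, hg'⟩ : ∃ g, g = ⌊x * J⌋₊ := ⟨_, rfl⟩
  obtain ⟨l1, hl1⟩ : ∃ l1, l1 = ⌊h₁ * J⌋₊ := ⟨_, rfl⟩
  obtain ⟨l2, hl2⟩ : ∃ l2, l2 = ⌊(ρ.pi - ρ.pi / 2) * J⌋₊ := ⟨_, rfl⟩
  have hg0 : (g : ℝ) ≤ x * J := by rw [hg']; exact Nat.floor_le (by positivity)
  have g1 : g + (q + 4) ≤ l1 := by
    rw [hl1]
    refine Nat.le_floor ?_
    push_cast
    linarith only [hm3, hx, hx0, hJx, hJm, hmh, hq2, hg0]
  have g2 : g + (q + 4) ≤ l2 := by
    rw [hl2]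
    refine Nat.le_floor ?_
    push_cast
    linarith only [hm3, hx, hx0, hJx, hJm, hmp, hq2, hg0]
  rcases d2 with d2 | ⟨-, e', n', h3⟩
  · linarith only [hpi, d2]
  have h3' : OnL i₀ (1 / 2 ^ l2) (Pool.KS6.ptq F ⌊Q * J⌋₊) F.d A e' n' := by
    rw [hl2]; exact h3
  have hQJ : ⌊Q * J⌋₊ ≤ J := floor_row_one hQ1 J
  have k1 : (1 : ℝ) / 2 ^ l1 ≤ 1 / 2 ^ (g + (q + 4)) := inv_mono g1
  have k2 : (1 : ℝ) / 2 ^ l2 ≤ 1 / 2 ^ (g + (q + 4)) := inv_mono g2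
  obtain ⟨u, hu⟩ : ∃ u : ℝ, u = 1 / 2 ^ (g + (q + 4)) := ⟨_, rfl⟩
  rw [← hu] at k1 k2
  have hu0 : 0 < u := by rw [hu]; positivity
  have hug : u * 2 ^ (q + 4) = 1 / 2 ^ g := by
    rw [hu, pow_add 2 g]
    field_simp
  have hp : (1 : ℝ) ≤ 2 ^ q := one_le_pow₀ (by norm_num)
  change LineAt i₀ (1 / 2 ^ ⌊x * J⌋₊) (Pool.KS6.ptq F ⌊Q * J⌋₊) F.d B
  rw [← hg']
  refine ⟨fun s j => cl1 (e' s j), n', fun ω _ j => cl1_le _, fun ω hω j => ?_⟩
  obtain ⟨ω', ω'', b1, b2, b3, b4, b5⟩ := hBs ω hω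
  have a1 := hfr.line ω' (hB _ b1) j
  have a2 := hfr.line ω'' (hB _ b2) j
  have a3 := h3' ω' (hB _ b1) j
  have a4 := h3' ω'' (hB _ b2) j
  rw [b3] at a1
  rw [b4] at a2
  rw [ptq_of_pt F hQJ b3] at a3
  rw [ptq_of_pt F hQJ b4] at a4
  have hcl := frame_close (U := ℕ) (d := F.d) a1 a2 a3 a4 (by positivity) b5
  rw [← hl1] at hcl
  have t1 : (2 * (1 / 2 ^ l1) + 2 * (1 / 2 ^ l2)) / (1 / 2 ^ (q + 1)) ≤
      8 * u * 2 ^ q := by
    rw [div_le_iff₀ (by positivity)]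
    have : 8 * u * 2 ^ q * (1 / 2 ^ (q + 1)) = 4 * u := by
      rw [pow_succ]
      field_simp
      norm_num
    rw [this]
    linarith only [k2, k1]
  have hbd := hfr.bound ω (hB _ hω) j
  have hnr := (cl1_near (r := e' (Pool.KS6.ptq F ⌊Q * J⌋₊ ω) j) hbd).trans (hcl.trans t1)
  have h3ω := (h3' ω (hB _ hω) j).trans k2
  have hd := F.dir ω i₀
  have e1 : F.d ω j - cl1 (e' (Pool.KS6.ptq F ⌊Q * J⌋₊ ω) j) * F.d ω i₀ -
      n' (Pool.KS6.ptq F ⌊Q * J⌋₊ ω) j =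
      (F.d ω j - e' (Pool.KS6.ptq F ⌊Q * J⌋₊ ω) j * F.d ω i₀ -
        n' (Pool.KS6.ptq F ⌊Q * J⌋₊ ω) j) -
      (cl1 (e' (Pool.KS6.ptq F ⌊Q * J⌋₊ ω) j) - e' (Pool.KS6.ptq F ⌊Q * J⌋₊ ω) j) *
        F.d ω i₀ := by ring
  change |F.d ω j - cl1 (e' (Pool.KS6.ptq F ⌊Q * J⌋₊ ω) j) * F.d ω i₀ -
      n' (Pool.KS6.ptq F ⌊Q * J⌋₊ ω) j| ≤ _
  rw [e1]
  refine (abs_sub _ _).trans ?_
  rw [abs_mul]
  have e2 : |cl1 (e' (Pool.KS6.ptq F ⌊Q * J⌋₊ ω) j) - e' (Pool.KS6.ptq F ⌊Q * J⌋₊ ω) j| *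
      |F.d ω i₀| ≤ 8 * u * 2 ^ q * 1 :=
    mul_le_mul hnr hd (abs_nonneg _) (by positivity)
  refine (add_le_add h3ω e2).trans ?_
  rw [← hug, pow_add]
  nlinarith only [hm3, hu0, hx, hx0, hp]

/-! ### Coarse planks -/

/-- A plank of larger size. -/
theorem inc_coarse {i₀ iu iN : Fin 3} {w w' lam lam' P P' : ℕ} {C : ℝ} {y : Pln} {t : ℝ}
    {x d : Fin 3 → ℝ} (h : Inc i₀ iu iN w lam P C y t x d) (hC : 0 ≤ C) (hw : w' ≤ w)
    (hl : lam' ≤ lam) (hP : P' ≤ P) (hPw : P' + w ≤ P + w') :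
    Inc i₀ iu iN w' lam' P' C y t x d := by
  refine ⟨h.e_le, h.c_le, h.s_le, ?_, ?_, ?_, h.ve, ?_, ?_⟩
  · exact h.pe.trans (div_le_div_of_nonneg_left hC (by positivity)
      (pow_le_pow_right₀ (by norm_num) hw))
  · exact h.pu.trans (div_le_div_of_nonneg_left hC (by positivity)
      (pow_le_pow_right₀ (by norm_num) (by omega)))
  · exact h.pn.trans (div_le_div_of_nonneg_left hC (by positivity)
      (pow_le_pow_right₀ (by norm_num) hP))
  · exact h.vu.trans (div_le_div_of_nonneg_left hC (by positivity)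
      (pow_le_pow_right₀ (by norm_num) hl))
  · refine h.vn.trans ?_
    rw [div_le_div_iff₀ (by positivity) (by positivity), mul_assoc, mul_assoc, ← pow_add,
      ← pow_add]
    exact mul_le_mul_of_nonneg_left (pow_le_pow_right₀ (by norm_num) (by omega)) hC

/-- Cut off at four. -/
noncomputable def cl4 (r : ℝ) : ℝ := max (-4) (min 4 r)

theorem cl4_le (r : ℝ) : |cl4 r| ≤ 4 := by
  unfold cl4
  rw [abs_le]
  exact ⟨le_max_left _ _, max_le (by norm_num) (min_le_left _ _)⟩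

theorem cl4_eq {r : ℝ} (h : |r| ≤ 4) : cl4 r = r := by
  have := abs_le.1 h
  unfold cl4
  rw [min_eq_right (by linarith [this.2]), max_eq_right (by linarith only [this, this.1])]

/-- The matrix of a plank. -/
noncomputable def Mpl (y : Pln) (i j : Fin 3) : ℝ :=
  if i = 1 then (if j = 0 then -cl4 y.e else 0) else
    if i = 2 then (if j = 0 then cl4 y.c else if j = 1 then cl4 y.s else 0) else 0

theorem Mpl_le (y : Pln) (i j : Fin 3) : |Mpl y i j| ≤ 4 := by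
  unfold Mpl
  split_ifs
  · rw [abs_neg]; exact cl4_le _
  · simp
  · exact cl4_le _
  · exact cl4_le _
  · simp
  · simp

/-- A plank is a box. -/
theorem box_inc {J : ℕ} (F : Fam 3 J) {i₀ iu iN : Fin 3} {w lam P : ℕ} {C c : ℝ}
    (hCc : C ≤ c) (hc : 4 ≤ c) {A : F.Ω → Prop} {z : F.Ω → Pln}
    (hI : ∀ ω, A ω → Inc i₀ iu iN w lam P C (z ω) (F.t ω) (F.x ω) (F.d ω)) :
    Pool.K3.BoxL F.x F.d A (fun ω => (z ω, F.T ω)) ![i₀, iu, iN] ![w, w + lam, P] w c := by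
  refine ⟨fun q => Mpl q.1, fun q i => q.1.xb (![i₀, iu, iN] i) +
    (q.2 : ℝ) / 2 ^ J * q.1.db (![i₀, iu, iN] i), fun q i => q.1.db (![i₀, iu, iN] i),
    fun q i j => (Mpl_le q.1 i j).trans hc, fun ω hω i => ?_⟩
  have h := hI ω hω
  have ht : F.t ω = (F.T ω : ℝ) / 2 ^ J := rfl
  rw [ht] at h
  have he := cl4_eq (h.e_le.trans (by norm_num))
  have hcc := cl4_eq h.c_le
  have hss := cl4_eq h.s_le
  have p0 : (0 : ℝ) < 2 ^ w := by positivity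
  have pl0 : (0 : ℝ) < 2 ^ lam := by positivity
  have h1 := h.pe
  have h2 := h.pu
  have h3 := h.pn
  have h4 := h.ve
  have h5 := h.vu
  have h6 := h.vn
  unfold fu at h2 h5
  unfold fn at h3 h6
  fin_cases i
  · simp only [Fin.zero_eta, Matrix.cons_val_zero, Fin.sum_univ_three]
    refine ⟨?_, ?_⟩
    · simp only [lt_self_iff_false, if_false, Fin.not_lt_zero, add_zero]
      exact h1.trans (div_le_div_of_nonneg_right hCc p0.le)
    · simp only [lt_self_iff_false, if_false, Fin.not_lt_zero, add_zero]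
      refine h4.trans ?_
      rw [mul_div_assoc, div_self p0.ne', mul_one]
      exact hCc
  · have e1 : ¬ ((1 : Fin 3) < 1) := by decide
    have e2 : ¬ ((2 : Fin 3) < 1) := by decide
    have e3 : (0 : Fin 3) < 1 := by decide
    simp only [Fin.mk_one, Fin.sum_univ_three, if_neg e1, if_neg e2, if_pos e3, add_zero, Mpl,
      if_true, he]
    refine ⟨?_, ?_⟩
    · refine le_trans (le_of_eq ?_) (h2.trans (div_le_div_of_nonneg_right hCc (by positivity)))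
      congr 1
      simp only [Matrix.cons_val_one, Matrix.cons_val_zero]
      ring
    · refine le_trans (le_of_eq ?_) (h5.trans (le_trans (div_le_div_of_nonneg_right hCc
        pl0.le) (le_of_eq ?_)))
      · congr 1
        simp only [Matrix.cons_val_one, Matrix.cons_val_zero]
        ring
      · simp only [Matrix.cons_val_one, Matrix.cons_val_zero]
        rw [pow_add]
        field_simp
  · have e1 : (0 : Fin 3) < 2 := by decide
    have e2 : (1 : Fin 3) < 2 := by decide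
    have e3 : ¬ ((2 : Fin 3) < 2) := by decide
    have e4 : ¬ ((2 : Fin 3) = 1) := by decide
    have e5 : ¬ ((1 : Fin 3) = 0) := by decide
    simp only [Fin.reduceFinMk, Fin.sum_univ_three, if_neg e3, if_pos e1, if_pos e2, add_zero,
      Mpl, if_true, if_neg e4, if_neg e5, hcc, hss]
    refine ⟨?_, ?_⟩
    · refine le_trans (le_of_eq ?_) (h3.trans (div_le_div_of_nonneg_right hCc (by positivity)))
      congr 1
      simp only [Matrix.cons_val_one, Matrix.cons_val_zero, Matrix.cons_val]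
      ring
    · refine le_trans (le_of_eq ?_) (h6.trans (div_le_div_of_nonneg_right
        (mul_le_mul_of_nonneg_right hCc p0.le) (by positivity)))
      congr 1
      simp only [Matrix.cons_val_one, Matrix.cons_val_zero, Matrix.cons_val]
      ring

/-- A plank determines the line of the directions. -/
theorem line_inc {J : ℕ} (F : Fam 3 J) {i₀ iu iN : Fin 3}
    (hi : ∀ j : Fin 3, j = i₀ ∨ j = iu ∨ j = iN) {W lam P : ℕ} {C : ℝ} (hC : 0 ≤ C)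
    {A : F.Ω → Prop} {z : F.Ω → Pln}
    (hI : ∀ ω, A ω → Inc i₀ iu iN W lam P C (z ω) (F.t ω) (F.x ω) (F.d ω))
    (h1 : W + lam ≤ P) :
    LineU i₀ (5 * C / 2 ^ lam) (fun ω => (z ω, F.T ω)) F.d A := by
  obtain ⟨n1, n2, n3⟩ := three hi
  refine ⟨fun q => bp i₀ iu q.1.e q.1.c q.1.s 1 0 0,
    fun q j => q.1.db j - bp i₀ iu q.1.e q.1.c q.1.s 1 0 0 j * q.1.db i₀, fun ω hω j => ?_⟩
  have hI' := hI ω hω
  simp only
  obtain ⟨Y, hY⟩ : ∃ Y, Y = z ω := ⟨_, rfl⟩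
  rw [← hY] at hI' ⊢
  have hl : (0 : ℝ) < 2 ^ lam := by positivity
  have cu := hI'.vu
  have cn := hI'.vn
  have hs := hI'.s_le
  rcases hi j with hj | hj | hj
  · rw [hj, bp_i0]
    have : F.d ω i₀ - 1 * F.d ω i₀ - (Y.db i₀ - 1 * Y.db i₀) = 0 := by ring
    rw [this, abs_zero]
    positivity
  · rw [hj]
    have e1 : bp i₀ iu Y.e Y.c Y.s 1 0 0 iu = Y.e := by
      unfold Pool.KS6.bp
      rw [if_neg n1, if_pos rfl]
      ring
    rw [e1]
    have e2 : F.d ω iu - Y.e * F.d ω i₀ - (Y.db iu - Y.e * Y.db i₀) =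
        fu i₀ iu Y.e (F.d ω) - fu i₀ iu Y.e Y.db := by unfold fu; ring
    rw [e2]
    refine cu.trans ?_
    exact div_le_div_of_nonneg_right (by linarith only [hC]) hl.le
  · rw [hj]
    have e1 : bp i₀ iu Y.e Y.c Y.s 1 0 0 iN = -Y.c - Y.s * Y.e := by
      unfold Pool.KS6.bp
      rw [if_neg n2, if_neg n3]
      ring
    rw [e1]
    have e2 : F.d ω iN - (-Y.c - Y.s * Y.e) * F.d ω i₀ -
        (Y.db iN - (-Y.c - Y.s * Y.e) * Y.db i₀) =
        (fn i₀ iu iN Y.c Y.s (F.d ω) - fn i₀ iu iN Y.c Y.s Y.db) +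
        (-Y.s) * (fu i₀ iu Y.e (F.d ω) - fu i₀ iu Y.e Y.db) := by unfold fu fn; ring
    rw [e2]
    refine (abs_add_le _ _).trans ?_
    have e3 : |(-Y.s) * (fu i₀ iu Y.e (F.d ω) - fu i₀ iu Y.e Y.db)| ≤ 4 * (C / 2 ^ lam) := by
      rw [abs_mul, abs_neg]
      exact mul_le_mul hs cu (abs_nonneg _) (by norm_num)
    have e4 : C * 2 ^ W / 2 ^ P ≤ C / 2 ^ lam := by
      rw [div_le_div_iff₀ (by positivity) hl, mul_assoc, ← pow_add]
      exact mul_le_mul_of_nonneg_left (pow_le_pow_right₀ (by norm_num) h1) hC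
    have e5 : 5 * C / 2 ^ lam = C / 2 ^ lam + 4 * (C / 2 ^ lam) := by ring
    linarith only [cn, e3, e4, e5]

/-! ### Meshes -/

/-- A fine mesh with two given nodes. -/
theorem mesh_two {v v' : ℚ} (hv : 0 ≤ v) (hv' : 0 ≤ v') (K : ℝ) :
    ∃ N V V' : ℕ, 0 < N ∧ K ≤ N ∧ (V : ℝ) = v * N ∧ (V' : ℝ) = v' * N := by
  obtain ⟨M, hM⟩ := exists_nat_gt (max K 1)
  have hM1 : (1 : ℝ) < M := (le_max_right _ _).trans_lt hM
  have hMK : K < M := (le_max_left _ _).trans_lt hM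
  have hMN : 0 < M := by
    have : (0 : ℝ) < M := by linarith only [hM1]
    exact_mod_cast this
  have hd1 : 0 < v.den := v.den_pos
  have hd2 : 0 < v'.den := v'.den_pos
  refine ⟨v.den * v'.den * M, v.num.toNat * v'.den * M, v.den * v'.num.toNat * M,
    by positivity, ?_, ?_, ?_⟩
  · have h1 : M ≤ v.den * v'.den * M := Nat.le_mul_of_pos_left M (by positivity)
    have h2 : (M : ℝ) ≤ ((v.den * v'.den * M : ℕ) : ℝ) := by exact_mod_cast h1
    linarith only [hMK, h2]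
  · have h1 : (v.num.toNat : ℤ) = v.num := Int.toNat_of_nonneg (Rat.num_nonneg.2 hv)
    have h2 : ((v.num.toNat : ℕ) : ℝ) = (v.num : ℝ) := by
      calc ((v.num.toNat : ℕ) : ℝ) = (((v.num.toNat : ℕ) : ℤ) : ℝ) := (Int.cast_natCast _).symm
        _ = (v.num : ℝ) := by rw [h1]
    have h3 : (v : ℝ) = v.num / v.den := by exact_mod_cast (Rat.num_div_den v).symm
    have hd1' : (v.den : ℝ) ≠ 0 := by exact_mod_cast hd1.ne'
    push_cast
    rw [h2, h3]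
    field_simp
  · have h1 : (v'.num.toNat : ℤ) = v'.num := Int.toNat_of_nonneg (Rat.num_nonneg.2 hv')
    have h2 : ((v'.num.toNat : ℕ) : ℝ) = (v'.num : ℝ) := by
      calc ((v'.num.toNat : ℕ) : ℝ) = (((v'.num.toNat : ℕ) : ℤ) : ℝ) := (Int.cast_natCast _).symm
        _ = (v'.num : ℝ) := by rw [h1]
    have h3 : (v' : ℝ) = v'.num / v'.den := by exact_mod_cast (Rat.num_div_den v').symm
    have hd1' : (v'.den : ℝ) ≠ 0 := by exact_mod_cast hd2.ne'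
    push_cast
    rw [h2, h3]
    field_simp

/-- The unit of the mesh. -/
theorem mesh_unit {N J : ℕ} (hN : 0 < N) :
    (N : ℝ) * (J / N : ℕ) ≤ J ∧ (J : ℝ) - N ≤ N * (J / N : ℕ) := by
  have h1 : N * (J / N) ≤ J := Nat.mul_div_le J N
  have h2 := Nat.lt_mul_div_succ J hN
  refine ⟨by exact_mod_cast h1, ?_⟩
  have h3 : (J : ℝ) < N * ((J / N : ℕ) + 1) := by exact_mod_cast h2
  linarith only [h3]

/-- Nodes below. -/
theorem mesh_le {N J k : ℕ} {s : ℝ} (hN : 0 < N) (h : (k : ℝ) ≤ s * N) :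
    ((k * (J / N) : ℕ) : ℝ) ≤ s * J := by
  obtain ⟨h1, -⟩ := mesh_unit (J := J) hN
  have hN' : (0 : ℝ) < N := by exact_mod_cast hN
  have hu : (0 : ℝ) ≤ (J / N : ℕ) := Nat.cast_nonneg _
  have h0 : 0 ≤ s := by
    by_contra hs
    push Not at hs
    have : s * N < 0 := mul_neg_of_neg_of_pos hs hN'
    have : (0 : ℝ) ≤ k := Nat.cast_nonneg k
    linarith
  push_cast [Nat.cast_mul]
  calc (k : ℝ) * ((J / N : ℕ) : ℝ) ≤ s * N * ((J / N : ℕ) : ℝ) := mul_le_mul_of_nonneg_right h hu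
    _ = s * (N * ((J / N : ℕ) : ℝ)) := by ring
    _ ≤ s * J := mul_le_mul_of_nonneg_left h1 h0

/-- Nodes above. -/
theorem mesh_ge {N J k : ℕ} {s b : ℝ} (hN : 0 < N) (hs : s ≤ 1) (hs0 : 0 ≤ s) (hb : 0 ≤ b)
    (h : s * N - b ≤ k) : s * J - b * (J / N) - N ≤ ((k * (J / N) : ℕ) : ℝ) := by
  obtain ⟨h1, h2⟩ := mesh_unit (J := J) hN
  have hN' : (0 : ℝ) < N := by exact_mod_cast hN
  have hu : (0 : ℝ) ≤ (J / N : ℕ) := Nat.cast_nonneg _
  have hu2 : ((J / N : ℕ) : ℝ) ≤ (J : ℝ) / N := by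
    rw [le_div_iff₀ hN']
    linarith only [h1]
  have e1 : (s * N - b) * ((J / N : ℕ) : ℝ) ≤ k * ((J / N : ℕ) : ℝ) :=
    mul_le_mul_of_nonneg_right h hu
  have e2 : s * (J - N) ≤ s * (N * ((J / N : ℕ) : ℝ)) := mul_le_mul_of_nonneg_left h2 hs0
  have e3 : b * ((J / N : ℕ) : ℝ) ≤ b * ((J : ℝ) / N) := mul_le_mul_of_nonneg_left hu2 hb
  have e4 : s * N ≤ 1 * N := mul_le_mul_of_nonneg_right hs hN'.le
  push_cast [Nat.cast_mul]
  have e5 : s * (J - N) = s * J - s * N := by ring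
  have e6 : (s * N - b) * ((J / N : ℕ) : ℝ) = s * (N * ((J / N : ℕ) : ℝ)) -
    b * ((J / N : ℕ) : ℝ) := by ring
  linarith only [e1, e2, e3, e4]

end Pool.S6C
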